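import Pool.Agent.Lib_MP_cd200f_co.Ker2

/-!
# Kernels and collineations which fix a regular spread
-/

namespace Pool.Agent.RegPack

open Module

variable {F V : Type*} [Field F] [AddCommGroup V] [Module F V]
variable {S S' : Set (Submodule F V)} {J J' : Module.End F V} {τ δ τ' δ' : F}

theorem Ker.inj (h : Ker S J τ δ) {x y : F} {v : V} (hv : v ≠ 0) (e : x • v + y • J v = 0) :
    x = 0 ∧ y = 0 := by
  by_cases hy : y = 0
  · subst hy
    rw [zero_smul, add_zero] at e
    exact ⟨(smul_eq_zero.1 e).resolve_right hv, rfl⟩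
  · exfalso
    refine h.ne v hv (-(y⁻¹ * x)) ?_
    have h1 : y⁻¹ • (x • v + y • J v) = 0 := by rw [e, smul_zero]
    rw [smul_add, smul_smul, smul_smul, inv_mul_cancel₀ hy, one_smul] at h1
    rw [neg_smul]
    exact eq_neg_of_add_eq_zero_right h1

theorem Ker.indep (h : Ker S J τ δ) {v : V} (hv : v ≠ 0) : LinearIndependent F ![v, J v] :=
  indep_of hv (h.ne v hv)

theorem Ker.line (h : Ker S J τ δ) {v : V} (hv : v ≠ 0) : Submodule.span F {v, J v} ∈ S := by
  rw [h.mem _ (isLine_span (h.indep hv))]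
  intro w hw
  rw [Submodule.mem_span_pair] at hw ⊢
  obtain ⟨a, b, rfl⟩ := hw
  refine ⟨-(b * δ), a + b * τ, ?_⟩
  rw [map_add, map_smul, map_smul, h.quad]
  module

/-- two spreads share a line as soon as `J'` leaves `span {w, J w}` invariant -/
theorem Ker.common (h : Ker S J τ δ) (h' : Ker S' J' τ' δ') {w : V} (hw : w ≠ 0)
    (h1 : J' w ∈ Submodule.span F {w, J w}) (h2 : J' (J w) ∈ Submodule.span F {w, J w}) :
    ∃ U, IsLine U ∧ U ∈ S ∧ U ∈ S' := by
  have hl := isLine_span (h.indep hw)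
  refine ⟨_, hl, h.line hw, ?_⟩
  rw [h'.mem _ hl]
  intro v hv
  rw [Submodule.mem_span_pair] at hv
  obtain ⟨a, b, rfl⟩ := hv
  rw [map_add, map_smul, map_smul]
  exact Submodule.add_mem _ (Submodule.smul_mem _ _ h1) (Submodule.smul_mem _ _ h2)

theorem Ker.no_root [Nontrivial V] (h : Ker S J τ δ) (c : F) : c * c - τ * c + δ ≠ 0 := by
  intro hc
  obtain ⟨v, hv⟩ := exists_ne (0 : V)
  have hw : J v - c • v ≠ 0 := fun h1 => h.ne v hv c (sub_eq_zero.1 h1)
  refine h.ne _ hw (τ - c) ?_
  rw [map_sub, map_smul, h.quad]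
  have h1 : δ = τ * c - c * c := by linear_combination hc
  rw [h1]
  module

theorem Ker.const (hV : finrank F V = 4) (hS : IsSpread S) (h : Ker S J τ δ)
    (h' : ∀ v, ∃ a b : F, J' v = a • v + b • J v) : ∃ a b : F, ∀ v, J' v = a • v + b • J v := by
  have hnt : Nontrivial V := Module.nontrivial_of_finrank_pos (R := F) (by rw [hV]; norm_num)
  obtain ⟨u, hu⟩ := exists_ne (0 : V)
  have hUS := h.line hu
  obtain ⟨U, hU⟩ : ∃ U, U = Submodule.span F {u, J u} := ⟨_, rfl⟩
  rw [← hU] at hUS
  have hUl := hS.line U hUS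
  have huU : u ∈ U := by rw [hU]; exact Submodule.subset_span (by simp)
  have hJuU : J u ∈ U := by rw [hU]; exact Submodule.subset_span (by simp)
  obtain ⟨a, b, hab⟩ := h' u
  have key : ∀ v, v ∉ U → J' v = a • v + b • J v := by
    intro v hv
    have hv0 : v ≠ 0 := fun h => hv (h ▸ U.zero_mem)
    obtain ⟨a2, b2, h2⟩ := h' v
    obtain ⟨a3, b3, h3⟩ := h' (u + v)
    have hTS := h.line hv0
    have hvT : v ∈ Submodule.span F {v, J v} := Submodule.subset_span (by simp)
    have hJvT : J v ∈ Submodule.span F {v, J v} := Submodule.subset_span (by simp)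
    have hne : U ≠ Submodule.span F {v, J v} := fun h => hv (by rw [h]; exact hvT)
    rw [map_add, map_add, hab, h2] at h3
    have h4 : (a3 - a) • u + (b3 - b) • J u = (a2 - a3) • v + (b2 - b3) • J v := by
      have h5 : (a3 • (u + v) + b3 • (J u + J v)) - (a • u + b • J u + (a2 • v + b2 • J v)) = 0 :=
        sub_eq_zero.2 h3.symm
      rw [← sub_eq_zero, ← h5]
      module
    have h5 : (a3 - a) • u + (b3 - b) • J u = 0 := by
      refine hS.disj' hUS hTS hne (U.add_mem (U.smul_mem _ huU) (U.smul_mem _ hJuU)) ?_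
      rw [h4]
      exact Submodule.add_mem _ (Submodule.smul_mem _ _ hvT) (Submodule.smul_mem _ _ hJvT)
    obtain ⟨e1, e2⟩ := h.inj hu h5
    rw [h5] at h4
    obtain ⟨e3, e4⟩ := h.inj hv0 h4.symm
    have f1 : a2 = a := by linear_combination e3 + e1
    have f2 : b2 = b := by linear_combination e4 + e2
    rw [h2, f1, f2]
  obtain ⟨v1, hv1⟩ : ∃ v1, v1 ∉ U := by
    by_contra hcon
    push Not at hcon
    have h1 : U = ⊤ := eq_top_iff.2 fun v _ => hcon v
    rw [h1] at hUl
    unfold IsLine at hUl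
    rw [finrank_top, hV] at hUl
    omega
  refine ⟨a, b, fun w => ?_⟩
  by_cases hw : w ∈ U
  · have h1 := key (w + v1) (fun h => hv1 ((U.add_mem_iff_right hw).1 h))
    have h2 := key v1 hv1
    rw [map_add, map_add, h2] at h1
    have h3 : J' w = (a • (w + v1) + b • (J w + J v1)) - (a • v1 + b • J v1) :=
      eq_sub_of_add_eq h1
    rw [h3]
    module
  · exact key w hw

theorem Ker.unique (hV : finrank F V = 4) (hS : IsSpread S) (h : Ker S J τ δ)
    (h' : Ker S J' τ δ) : (∀ v, J' v = J v) ∨ (∀ v, J' v = τ • v - J v) := by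
  have hnt : Nontrivial V := Module.nontrivial_of_finrank_pos (R := F) (by rw [hV]; norm_num)
  have h1 : ∀ v, ∃ a b : F, J' v = a • v + b • J v := by
    intro v
    by_cases hv : v = 0
    · exact ⟨0, 0, by rw [hv, map_zero]; simp⟩
    · have h2 := h.line hv
      have h3 := (h'.mem _ (hS.line _ h2)).1 h2 v (Submodule.subset_span (by simp))
      rw [Submodule.mem_span_pair] at h3
      obtain ⟨a, b, e⟩ := h3
      exact ⟨a, b, e.symm⟩
  obtain ⟨a, b, hab⟩ := h.const hV hS h1
  obtain ⟨v, hv⟩ := exists_ne (0 : V)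
  have h2 := h'.quad v
  rw [hab (J' v), hab v, map_add, map_smul, map_smul, h.quad] at h2
  have h3 : (a * a - b * b * δ - τ * a + δ) • v + (2 * a * b + b * b * τ - τ * b) • J v = 0 := by
    have h4 := sub_eq_zero.2 h2
    rw [← h4]
    module
  obtain ⟨e1, e2⟩ := h.inj hv h3
  have h5 : a • ((a - τ) • v + (b + 1) • J v) + (b - 1) • J ((a - τ) • v + (b + 1) • J v) = 0 := by
    have h6 : a • ((a - τ) • v + (b + 1) • J v) + (b - 1) • J ((a - τ) • v + (b + 1) • J v) =
        (a * a - b * b * δ - τ * a + δ) • v + (2 * a * b + b * b * τ - τ * b) • J v := by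
      rw [map_add, map_smul, map_smul, h.quad]
      module
    rw [h6, h3]
  by_cases hw : (a - τ) • v + (b + 1) • J v = 0
  · right
    obtain ⟨e3, e4⟩ := h.inj hv hw
    intro w
    have f1 : a = τ := by linear_combination e3
    have f2 : b = -1 := by linear_combination e4
    rw [hab, f1, f2]
    module
  · left
    obtain ⟨e3, e4⟩ := h.inj hw h5
    intro w
    have f2 : b = 1 := by linear_combination e4
    rw [hab, e3, f2]
    module

theorem isLine_map (g : V ≃ₗ[F] V) {U : Submodule F V} (hU : IsLine U) :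
    IsLine (U.map (g : V →ₗ[F] V)) := by
  unfold IsLine at *
  rw [LinearEquiv.finrank_map_eq]
  exact hU

theorem map_eq_of_inv (g : V ≃ₗ[F] V) {U : Submodule F V} (hU : IsLine U)
    (h : ∀ u ∈ U, g u ∈ U) : U.map (g : V →ₗ[F] V) = U := by
  refine (isLine_map g hU).eq_of_le hU ?_
  rintro _ ⟨u, hu, rfl⟩
  exact h u hu

theorem Ker.conj {g : V ≃ₗ[F] V} (hg : im g S = S) (h : Ker S J τ δ) :
    Ker S ((g : V →ₗ[F] V) ∘ₗ J ∘ₗ (g.symm : V →ₗ[F] V)) τ δ := by
  have happ : ∀ v, ((g : V →ₗ[F] V) ∘ₗ J ∘ₗ (g.symm : V →ₗ[F] V)) v = g (J (g.symm v)) :=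
    fun _ => rfl
  refine ⟨fun v => ?_, fun v hv c hc => ?_, fun U hU => ?_⟩
  · rw [happ, happ, LinearEquiv.symm_apply_apply, h.quad, map_sub, map_smul, map_smul,
      LinearEquiv.apply_symm_apply]
  · rw [happ] at hc
    refine h.ne (g.symm v) (fun h1 => hv ((LinearEquiv.map_eq_zero_iff g.symm).1 h1)) c ?_
    rw [← g.symm_apply_apply (J (g.symm v)), hc, map_smul]
  · constructor
    · intro hUS v hv
      rw [← hg] at hUS
      obtain ⟨W, hW, rfl⟩ := hUS
      have hWl : IsLine W := by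
        have h1 := isLine_map g.symm hU
        have h2 : Submodule.map (g.symm : V →ₗ[F] V) (Submodule.map (g : V →ₗ[F] V) W) = W := by
          rw [← Submodule.map_comp]
          have h3 : (g.symm : V →ₗ[F] V) ∘ₗ (g : V →ₗ[F] V) = LinearMap.id := by
            ext x
            simp
          rw [h3, Submodule.map_id]
        rw [← h2]
        exact h1
      obtain ⟨w, hw, rfl⟩ := hv
      rw [happ]
      have h4 : g.symm ((g : V →ₗ[F] V) w) = w := g.symm_apply_apply w
      rw [h4]
      exact ⟨J w, (h.mem W hWl).1 hW w hw, rfl⟩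
    · intro h1
      rw [← hg]
      have h2 : Submodule.map (g : V →ₗ[F] V) (Submodule.map (g.symm : V →ₗ[F] V) U) = U := by
        rw [← Submodule.map_comp]
        have h3 : (g : V →ₗ[F] V) ∘ₗ (g.symm : V →ₗ[F] V) = LinearMap.id := by
          ext x
          simp
        rw [h3, Submodule.map_id]
      refine ⟨Submodule.map (g.symm : V →ₗ[F] V) U, ?_, h2⟩
      rw [h.mem _ (isLine_map g.symm hU)]
      rintro _ ⟨u, hu, rfl⟩
      refine ⟨g (J (g.symm u)), h1 u hu, ?_⟩
      exact g.symm_apply_apply _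

theorem comm_or (hV : finrank F V = 4) (hS : IsSpread S) {g : V ≃ₗ[F] V} (hg : im g S = S)
    (h : Ker S J τ δ) : (∀ v, g (J v) = J (g v)) ∨ (∀ v, g (J v) = τ • g v - J (g v)) := by
  rcases h.unique hV hS (h.conj hg) with h1 | h1
  · left
    intro v
    have h2 := h1 (g v)
    rw [← h2]
    show g (J v) = g (J (g.symm (g v)))
    rw [g.symm_apply_apply]
  · right
    intro v
    have h2 := h1 (g v)
    rw [← h2]
    show g (J v) = g (J (g.symm (g v)))
    rw [g.symm_apply_apply]

theorem comm_odd (hV : finrank F V = 4) (hS : IsSpread S) {g : V ≃ₗ[F] V} (hg : im g S = S)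
    (h : Ker S J τ δ) {k : ℕ} {c : F} (hc : ∀ v, (g ^ (2 * k + 1)) v = c • v) (v : V) :
    g (J v) = J (g v) := by
  have hnt : Nontrivial V := Module.nontrivial_of_finrank_pos (R := F) (by rw [hV]; norm_num)
  have h2 : ∀ v, g (g (J v)) = J (g (g v)) := by
    intro v
    rcases comm_or hV hS hg h with h1 | h1
    · rw [h1, h1]
    · rw [h1, map_sub, map_smul, h1]
      abel
  have h3 : ∀ (n : ℕ) (v : V), (g ^ (2 * n)) (J v) = J ((g ^ (2 * n)) v) := by
    intro n
    induction n with
    | zero =>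
      intro v
      simp
    | succ n ih =>
      intro v
      have e1 : g ^ (2 * (n + 1)) = g ^ (2 * n) * (g * g) := by
        rw [mul_add, pow_add, mul_one, pow_two]
      rw [e1]
      show (g ^ (2 * n)) (g (g (J v))) = J ((g ^ (2 * n)) (g (g v)))
      rw [h2, ih]
  have h4 : ∀ v, (g ^ (2 * (k + 1))) v = c • g v := by
    intro v
    have e1 : g ^ (2 * (k + 1)) = g ^ (2 * k + 1) * g := by
      rw [← pow_succ]
      rfl
    rw [e1]
    show (g ^ (2 * k + 1)) (g v) = _
    rw [hc]
  have hc0 : c ≠ 0 := by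
    rintro rfl
    obtain ⟨u, hu⟩ := exists_ne (0 : V)
    have h5 := hc u
    rw [zero_smul] at h5
    exact hu ((LinearEquiv.map_eq_zero_iff _).1 h5)
  have h5 := h3 (k + 1) v
  rw [h4, h4, map_smul] at h5
  exact smul_right_injective V hc0 h5

end Pool.Agent.RegPack
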