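import Mathlib

/-!
# Regular packings of `PG(3, F)`: definitions

Points and lines of `PG(3, F)` are the subspaces of dimension one and two of a vector space `V` of
dimension four.
-/

namespace Pool.Agent.RegPack

variable {F V : Type*} [Field F] [AddCommGroup V] [Module F V]

/-- The lines of the projective space: the subspaces of dimension two. -/
def IsLine (U : Submodule F V) : Prop := Module.finrank F U = 2

/-- Two subspaces meet: they have a common point. -/
def Meet (U T : Submodule F V) : Prop := U ⊓ T ≠ ⊥

/-- A spread: a set of lines such that every point lies on exactly one of them. -/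
structure IsSpread (S : Set (Submodule F V)) : Prop where
  line : ∀ U ∈ S, IsLine U
  cover : ∀ v : V, v ≠ 0 → ∃! U, U ∈ S ∧ v ∈ U

/-- The regulus of three lines: the lines which meet every line that meets all three. -/
def regulus (a b c : Submodule F V) : Set (Submodule F V) :=
  {U | IsLine U ∧ ∀ T, IsLine T → Meet T a → Meet T b → Meet T c → Meet T U}

/-- A regular spread: the regulus of any three of its lines is contained in the spread. -/
def IsRegular (S : Set (Submodule F V)) : Prop :=
  ∀ a ∈ S, ∀ b ∈ S, ∀ c ∈ S, a ≠ b → a ≠ c → b ≠ c → regulus a b c ⊆ S

/-- A packing: a set of spreads such that every line lies in exactly one of them. -/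
structure IsPacking (P : Set (Set (Submodule F V))) : Prop where
  spread : ∀ S ∈ P, IsSpread S
  cover : ∀ U, IsLine U → ∃! S, S ∈ P ∧ U ∈ S

/-- The image of a set of subspaces under a collineation. -/
def im (g : V ≃ₗ[F] V) (S : Set (Submodule F V)) : Set (Submodule F V) :=
  (fun U => U.map (g : V →ₗ[F] V)) '' S

end Pool.Agent.RegPack
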