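import Pool.Agent.Lib_MP_cd200f_co.Defs

/-!
# The kernel of a regular spread
-/

namespace Pool.Agent.RegPack

open Module

variable {F V : Type*} [Field F] [AddCommGroup V] [Module F V]

theorem IsLine.fin {U : Submodule F V} (h : IsLine U) : FiniteDimensional F U :=
  FiniteDimensional.of_finrank_pos (by rw [h]; norm_num)

theorem IsLine.ne_bot {U : Submodule F V} (h : IsLine U) : U ≠ ⊥ := by
  rintro rfl
  unfold IsLine at h
  rw [finrank_bot] at h
  omega

theorem IsLine.exists_ne {U : Submodule F V} (h : IsLine U) : ∃ v ∈ U, v ≠ 0 :=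
  Submodule.exists_mem_ne_zero_of_ne_bot h.ne_bot

theorem IsLine.eq_of_le {U T : Submodule F V} (hU : IsLine U) (hT : IsLine T) (h : U ≤ T) :
    U = T := by
  have := hT.fin
  exact Submodule.eq_of_le_of_finrank_eq h (hU.trans hT.symm)

/-- the line spanned by two independent vectors -/
theorem isLine_span {u v : V} (h : LinearIndependent F ![u, v]) :
    IsLine (Submodule.span F {u, v}) := by
  have h1 := finrank_span_eq_card h
  rw [Matrix.range_cons_cons_empty, Fintype.card_fin] at h1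
  exact h1

theorem indep_of {u v : V} (hu : u ≠ 0) (h : ∀ c : F, v ≠ c • u) :
    LinearIndependent F ![u, v] := by
  rw [LinearIndependent.pair_iff' hu]
  exact fun a ha => h a ha.symm

theorem IsLine.eq_span {U : Submodule F V} (h : IsLine U) {u v : V} (hu : u ∈ U) (hv : v ∈ U)
    (hi : LinearIndependent F ![u, v]) : U = Submodule.span F {u, v} := by
  refine ((isLine_span hi).eq_of_le h ?_).symm
  rw [Submodule.span_le]
  rintro x (rfl | rfl)
  · exact hu
  · exact hv

theorem IsLine.exists_coef {U : Submodule F V} (h : IsLine U) {u v w : V} (hu : u ∈ U) (hv : v ∈ U)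
    (hi : LinearIndependent F ![u, v]) (hw : w ∈ U) : ∃ x y : F, w = x • u + y • v := by
  rw [h.eq_span hu hv hi, Submodule.mem_span_pair] at hw
  obtain ⟨x, y, e⟩ := hw
  exact ⟨x, y, e.symm⟩

theorem IsSpread.disj {S : Set (Submodule F V)} (hS : IsSpread S) {U T : Submodule F V}
    (hU : U ∈ S) (hT : T ∈ S) {v : V} (hv : v ≠ 0) (h1 : v ∈ U) (h2 : v ∈ T) : U = T :=
  (hS.cover v hv).unique ⟨hU, h1⟩ ⟨hT, h2⟩

theorem IsSpread.disj' {S : Set (Submodule F V)} (hS : IsSpread S) {U T : Submodule F V}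
    (hU : U ∈ S) (hT : T ∈ S) (h : U ≠ T) {v : V} (h1 : v ∈ U) (h2 : v ∈ T) : v = 0 := by
  by_contra hv
  exact h (hS.disj hU hT hv h1 h2)

/-- `J` generates the kernel of the regular spread `S`. -/
structure Ker (S : Set (Submodule F V)) (J : Module.End F V) (τ δ : F) : Prop where
  quad : ∀ v, J (J v) = τ • J v - δ • v
  ne : ∀ v, v ≠ 0 → ∀ c : F, J v ≠ c • v
  mem : ∀ U, IsLine U → (U ∈ S ↔ ∀ v ∈ U, J v ∈ U)

/-- two disjoint lines decompose the space -/
theorem exists_decomp (hV : finrank F V = 4) {U T : Submodule F V} (hU : IsLine U) (hT : IsLine T)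
    (h : ∀ v, v ∈ U → v ∈ T → v = 0) : ∃ e : (U × T) ≃ₗ[F] V, ∀ x, e x = x.1 + x.2 := by
  have h0 := hU.fin
  have h1 := hT.fin
  have h2 : FiniteDimensional F V := FiniteDimensional.of_finrank_pos (by rw [hV]; norm_num)
  have hinj : Function.Injective (U.subtype.coprod T.subtype) := by
    rw [← LinearMap.ker_eq_bot, LinearMap.ker_eq_bot']
    rintro ⟨a, b⟩ hab
    rw [LinearMap.coprod_apply] at hab
    have h3 : (a : V) = -(b : V) := eq_neg_of_add_eq_zero_left hab
    have h4 : (a : V) = 0 := h a a.2 (by rw [h3]; exact T.neg_mem b.2)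
    have h5 : (b : V) = 0 := by rw [h4] at h3; exact (neg_eq_zero.1 h3.symm)
    exact Prod.ext (Subtype.ext h4) (Subtype.ext h5)
  have hfr : finrank F (U × T) = finrank F V := by
    rw [finrank_prod, hV]
    unfold IsLine at hU hT
    omega
  refine ⟨LinearEquiv.ofBijective (U.subtype.coprod T.subtype)
    ⟨hinj, (LinearMap.injective_iff_surjective_of_finrank_eq_finrank hfr).1 hinj⟩, fun x => ?_⟩
  rw [LinearEquiv.ofBijective_apply, LinearMap.coprod_apply]
  rfl

/-- Coordinates: three lines of a spread. -/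
theorem exists_frame (hV : finrank F V = 4) {S : Set (Submodule F V)} (hS : IsSpread S) :
    ∃ (A B C : Submodule F V) (Φ : ((Fin 2 → F) × (Fin 2 → F)) ≃ₗ[F] V), A ∈ S ∧ B ∈ S ∧ C ∈ S ∧
      (∀ w, Φ (0, w) ∈ A) ∧ (∀ w, Φ (w, 0) ∈ B) ∧ (∀ w, Φ (w, w) ∈ C) ∧ A ≠ B := by
  have hfd : FiniteDimensional F V := FiniteDimensional.of_finrank_pos (by rw [hV]; norm_num)
  have hnt : Nontrivial V := Module.nontrivial_of_finrank_pos (R := F) (by rw [hV]; norm_num)
  obtain ⟨v1, hv1⟩ := exists_ne (0 : V)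
  obtain ⟨A, ⟨hA, hvA⟩, -⟩ := hS.cover v1 hv1
  have hAl := hS.line A hA
  obtain ⟨v2, hv2⟩ : ∃ v2, v2 ∉ A := by
    by_contra hcon
    push Not at hcon
    have h1 : A = ⊤ := eq_top_iff.2 fun v _ => hcon v
    rw [h1] at hAl
    unfold IsLine at hAl
    rw [finrank_top, hV] at hAl
    omega
  have hv20 : v2 ≠ 0 := fun h => hv2 (h ▸ A.zero_mem)
  obtain ⟨B, ⟨hB, hvB⟩, -⟩ := hS.cover v2 hv20
  have hAB : A ≠ B := fun h => hv2 (h ▸ hvB)
  have hv3 : v1 + v2 ≠ 0 := fun h => hv2 (by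
    rw [eq_neg_of_add_eq_zero_right h]
    exact A.neg_mem hvA)
  obtain ⟨C, ⟨hC, hvC⟩, -⟩ := hS.cover (v1 + v2) hv3
  have hAC : A ≠ C := fun h => hv2 (by
    have h1 : v1 + v2 ∈ A := h ▸ hvC
    exact (A.add_mem_iff_right hvA).1 h1)
  have hBC : B ≠ C := fun h => hAB (by
    have h1 : v1 + v2 ∈ B := h ▸ hvC
    exact hS.disj hA hB hv1 hvA ((B.add_mem_iff_left hvB).1 h1))
  have hBl := hS.line B hB
  have hCl := hS.line C hC
  have fB := hBl.fin
  obtain ⟨e, he⟩ := exists_decomp hV hAl hCl (fun v h1 h2 => hS.disj' hA hC hAC h1 h2)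
  obtain ⟨b⟩ : Nonempty ((Fin 2 → F) ≃ₗ[F] B) := by
    refine FiniteDimensional.nonempty_linearEquiv_of_finrank_eq ?_
    rw [finrank_fin_fun]
    exact hBl.symm
  let f : (Fin 2 → F) →ₗ[F] V :=
    -(A.subtype ∘ₗ LinearMap.fst F A C ∘ₗ (e.symm : V →ₗ[F] (A × C)) ∘ₗ B.subtype ∘ₗ
      (b : (Fin 2 → F) →ₗ[F] B))
  have hf : ∀ w, f w = -(((e.symm (b w : V)).1 : A) : V) := fun w => rfl
  have hfA : ∀ w, f w ∈ A := fun w => by
    rw [hf]
    exact A.neg_mem (e.symm (b w : V)).1.2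
  have hfC : ∀ w, (b w : V) + f w = (((e.symm (b w : V)).2 : C) : V) := fun w => by
    have h1 := he (e.symm (b w : V))
    rw [LinearEquiv.apply_symm_apply] at h1
    rw [hf]
    nth_rewrite 1 [h1]
    abel
  let φ : ((Fin 2 → F) × (Fin 2 → F)) →ₗ[F] V :=
    (B.subtype ∘ₗ (b : (Fin 2 → F) →ₗ[F] B)).coprod f
  have hφ : ∀ x, φ x = (b x.1 : V) + f x.2 := fun x => by
    rw [LinearMap.coprod_apply]
    rfl
  have hinj : Function.Injective φ := by
    rw [← LinearMap.ker_eq_bot, LinearMap.ker_eq_bot']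
    rintro ⟨x, y⟩ hxy
    rw [hφ] at hxy
    have h1 : (b x : V) = -(f y) := eq_neg_of_add_eq_zero_left hxy
    have h2 : (b x : V) = 0 := hS.disj' hA hB hAB (by rw [h1]; exact A.neg_mem (hfA y)) (b x).2
    have h3 : x = 0 := by
      have : b x = 0 := Subtype.ext h2
      exact (LinearEquiv.map_eq_zero_iff b).1 this
    have h4 : f y = 0 := by
      rw [h2] at h1
      exact neg_eq_zero.1 h1.symm
    have h5 : (b y : V) = 0 := by
      have h6 := hfC y
      rw [h4, add_zero] at h6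
      exact hS.disj' hB hC hBC (b y).2 (by rw [h6]; exact (e.symm (b y : V)).2.2)
    have h6 : y = 0 := by
      have : b y = 0 := Subtype.ext h5
      exact (LinearEquiv.map_eq_zero_iff b).1 this
    rw [h3, h6]
    rfl
  have hfr : finrank F ((Fin 2 → F) × (Fin 2 → F)) = finrank F V := by
    rw [finrank_prod, finrank_fin_fun, hV]
  refine ⟨A, B, C, LinearEquiv.ofBijective φ
    ⟨hinj, (LinearMap.injective_iff_surjective_of_finrank_eq_finrank hfr).1 hinj⟩, hA, hB, hC,
    ?_, ?_, ?_, hAB⟩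
  · intro w
    rw [LinearEquiv.ofBijective_apply, hφ]
    show ((b 0 : B) : V) + f w ∈ A
    rw [map_zero, ZeroMemClass.coe_zero, zero_add]
    exact hfA w
  · intro w
    rw [LinearEquiv.ofBijective_apply, hφ]
    show ((b w : B) : V) + f 0 ∈ B
    rw [map_zero, add_zero]
    exact (b w).2
  · intro w
    rw [LinearEquiv.ofBijective_apply, hφ]
    show ((b w : B) : V) + f w ∈ C
    rw [hfC]
    exact (e.symm (b w : V)).2.2

end Pool.Agent.RegPack
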