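import Pool.Agent.Lib_MP_cd200f_co.Ker

/-!
# The kernel of a regular spread: existence
-/

namespace Pool.Agent.RegPack

open Module

variable {F V : Type*} [Field F] [AddCommGroup V] [Module F V]

section graph

variable (Φ : ((Fin 2 → F) × (Fin 2 → F)) ≃ₗ[F] V)

/-- The graph of a linear map. -/
def gr (f : (Fin 2 → F) →ₗ[F] (Fin 2 → F)) : Submodule F V :=
  LinearMap.range ((Φ : ((Fin 2 → F) × (Fin 2 → F)) →ₗ[F] V) ∘ₗ (LinearMap.id.prod f))

theorem mem_gr {f : (Fin 2 → F) →ₗ[F] (Fin 2 → F)} {v : V} :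
    v ∈ gr Φ f ↔ ∃ w, Φ (w, f w) = v := Iff.rfl

theorem mem_gr' {f : (Fin 2 → F) →ₗ[F] (Fin 2 → F)} {x y : Fin 2 → F} :
    Φ (x, y) ∈ gr Φ f ↔ y = f x := by
  rw [mem_gr]
  constructor
  · rintro ⟨w, h⟩
    have h1 := Φ.injective h
    have h2 : w = x := congrArg Prod.fst h1
    have h3 : f w = y := congrArg Prod.snd h1
    rw [← h3, h2]
  · rintro rfl
    exact ⟨x, rfl⟩

theorem gr_isLine (f : (Fin 2 → F) →ₗ[F] (Fin 2 → F)) : IsLine (gr Φ f) := by
  unfold IsLine gr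
  rw [LinearMap.finrank_range_of_inj, finrank_fin_fun]
  intro x y h
  exact congrArg Prod.fst (Φ.injective h)

theorem gr_inj {f g : (Fin 2 → F) →ₗ[F] (Fin 2 → F)} (h : gr Φ f = gr Φ g) : f = g := by
  refine LinearMap.ext fun x => ?_
  have h1 : Φ (x, f x) ∈ gr Φ f := (mem_gr' Φ).2 rfl
  rw [h] at h1
  exact (mem_gr' Φ).1 h1

end graph

theorem exists_ker (hV : finrank F V = 4) {γ : F} (hγ0 : γ ≠ 0) (hγ1 : γ ≠ 1)
    {S : Set (Submodule F V)} (hS : IsSpread S) (hR : IsRegular S) :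
    ∃ (J : Module.End F V) (τ δ : F), Ker S J τ δ := by
  obtain ⟨A, B, C, Φ, hA, hB, hC, hΦA, hΦB, hΦC, hAB⟩ := exists_frame hV hS
  have hAl := hS.line A hA
  have hinA : ∀ x y, Φ (x, y) ∈ A → x = 0 := by
    intro x y h
    have h1 : Φ (x, 0) ∈ A := by
      have h2 : Φ (x, 0) = Φ (x, y) - Φ (0, y) := by
        rw [← map_sub, Prod.mk_sub_mk, sub_zero, sub_self]
      rw [h2]
      exact A.sub_mem h (hΦA y)
    have h2 : Φ (x, 0) = 0 := hS.disj' hA hB hAB h1 (hΦB x)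
    have h3 := (LinearEquiv.map_eq_zero_iff Φ).1 h2
    exact congrArg Prod.fst h3
  have hne : ∀ {x y : Fin 2 → F}, x ≠ 0 → Φ (x, y) ≠ 0 := by
    intro x y hx h
    exact hx (congrArg Prod.fst ((LinearEquiv.map_eq_zero_iff Φ).1 h))
  -- G1
  have G1 : ∀ U ∈ S, U ≠ A → ∃ f, U = gr Φ f := by
    intro U hU hUA
    have hUl := hS.line U hU
    have fU := hUl.fin
    let p : U →ₗ[F] (Fin 2 → F) := LinearMap.fst F (Fin 2 → F) (Fin 2 → F) ∘ₗ
      (Φ.symm : V →ₗ[F] ((Fin 2 → F) × (Fin 2 → F))) ∘ₗ U.subtype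
    have hp : ∀ u : U, p u = (Φ.symm (u : V)).1 := fun _ => rfl
    have hinj : Function.Injective p := by
      rw [← LinearMap.ker_eq_bot, LinearMap.ker_eq_bot']
      intro u hu
      rw [hp] at hu
      have h1 : (u : V) = Φ (0, (Φ.symm (u : V)).2) := by
        rw [← hu, Prod.mk.eta, LinearEquiv.apply_symm_apply]
      exact Subtype.ext (hS.disj' hU hA hUA u.2 (by rw [h1]; exact hΦA _))
    have hfr : finrank F U = finrank F (Fin 2 → F) := by
      rw [finrank_fin_fun]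
      exact hUl
    obtain ⟨E, hE⟩ : ∃ E : U ≃ₗ[F] (Fin 2 → F), ∀ u, E u = p u :=
      ⟨LinearEquiv.ofBijective p
        ⟨hinj, (LinearMap.injective_iff_surjective_of_finrank_eq_finrank hfr).1 hinj⟩,
        fun _ => rfl⟩
    refine ⟨LinearMap.snd F (Fin 2 → F) (Fin 2 → F) ∘ₗ
      (Φ.symm : V →ₗ[F] ((Fin 2 → F) × (Fin 2 → F))) ∘ₗ U.subtype ∘ₗ
      (E.symm : (Fin 2 → F) →ₗ[F] U), ((gr_isLine Φ _).eq_of_le hUl ?_).symm⟩
    rintro v ⟨w, rfl⟩
    show Φ (w, (Φ.symm ((E.symm w : U) : V)).2) ∈ U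
    have h1 : w = (Φ.symm ((E.symm w : U) : V)).1 := by
      rw [← hp, ← hE, LinearEquiv.apply_symm_apply]
    have h2 : (w, (Φ.symm ((E.symm w : U) : V)).2) = Φ.symm ((E.symm w : U) : V) :=
      Prod.ext h1 rfl
    rw [h2, LinearEquiv.apply_symm_apply]
    exact (E.symm w).2
  have G2 : ∀ w w' : Fin 2 → F, w ≠ 0 → ∃ f, gr Φ f ∈ S ∧ f w = w' := by
    intro w w' hw
    obtain ⟨U, ⟨hU, hvU⟩, -⟩ := hS.cover (Φ (w, w')) (hne hw)
    have hUA : U ≠ A := fun h => hw (hinA w w' (h ▸ hvU))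
    obtain ⟨f, rfl⟩ := G1 U hU hUA
    exact ⟨f, hU, ((mem_gr' Φ).1 hvU).symm⟩
  have G3 : ∀ f g w, gr Φ f ∈ S → gr Φ g ∈ S → w ≠ 0 → f w = g w → f = g := by
    intro f g w hf hg hw h
    exact gr_inj Φ (hS.disj hf hg (hne hw) ((mem_gr' Φ).2 rfl) ((mem_gr' Φ).2 h))
  have hgrA : ∀ f, gr Φ f ≠ A := by
    intro f h
    have h1 : Φ (Pi.single 0 1, f (Pi.single 0 1)) ∈ gr Φ f := (mem_gr' Φ).2 rfl
    rw [h] at h1
    have h2 := congrFun (hinA _ _ h1) 0
    rw [Pi.single_eq_same] at h2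
    exact one_ne_zero h2
  have G4 : ∀ f g (c : F), gr Φ f ∈ S → gr Φ g ∈ S → gr Φ (f + c • (g - f)) ∈ S := by
    intro f g c hf hg
    by_cases hfg : f = g
    · rw [hfg, sub_self, smul_zero, add_zero]
      exact hg
    refine hR A hA _ hf _ hg (hgrA f).symm (hgrA g).symm (fun h => hfg (gr_inj Φ h))
      ⟨gr_isLine Φ _, ?_⟩
    intro T hT h1 h2 h3
    obtain ⟨a, ha, ha0⟩ := Submodule.exists_mem_ne_zero_of_ne_bot h1
    obtain ⟨b, hb, hb0⟩ := Submodule.exists_mem_ne_zero_of_ne_bot h2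
    obtain ⟨b', hb', hb'0⟩ := Submodule.exists_mem_ne_zero_of_ne_bot h3
    rw [Submodule.mem_inf] at ha hb hb'
    obtain ⟨⟨z, a'⟩, rfl⟩ := Φ.surjective a
    have hz := hinA z a' ha.2
    subst hz
    obtain ⟨x, rfl⟩ := (mem_gr Φ).1 hb.2
    obtain ⟨x', rfl⟩ := (mem_gr Φ).1 hb'.2
    have hx0 : x ≠ 0 := by
      rintro rfl
      apply hb0
      rw [map_zero]
      exact map_zero Φ
    have hx'0 : x' ≠ 0 := by
      rintro rfl
      apply hb'0
      rw [map_zero]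
      exact map_zero Φ
    have hi : LinearIndependent F ![Φ (0, a'), Φ (x, f x)] := by
      refine indep_of ha0 fun c hc => hx0 ?_
      rw [← map_smul] at hc
      have h4 := congrArg Prod.fst (Φ.injective hc)
      have h5 : x = c • (0 : Fin 2 → F) := h4
      rw [h5, smul_zero]
    obtain ⟨s, t, hst⟩ := hT.exists_coef ha.1 hb.1 hi hb'.1
    rw [← map_smul, ← map_smul, ← map_add] at hst
    have h4 := Φ.injective hst
    have h5 : x' = s • (0 : Fin 2 → F) + t • x := congrArg Prod.fst h4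
    have h6 : g x' = s • a' + t • f x := congrArg Prod.snd h4
    rw [smul_zero, zero_add] at h5
    have ht : t ≠ 0 := by
      rintro rfl
      rw [zero_smul] at h5
      exact hx'0 h5
    have h7 : g x = (t⁻¹ * s) • a' + f x := by
      rw [h5, map_smul] at h6
      have h8 := congrArg (fun y => t⁻¹ • y) h6
      simp only [smul_add, smul_smul, inv_mul_cancel₀ ht, one_smul] at h8
      exact h8
    have h8 : Φ (x, (f + c • (g - f)) x) = Φ (x, f x) + (c * (t⁻¹ * s)) • Φ (0, a') := by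
      rw [← map_smul, ← map_add]
      congr 1
      refine Prod.ext ?_ ?_
      · show x = x + (c * (t⁻¹ * s)) • (0 : Fin 2 → F)
        rw [smul_zero, add_zero]
      · show f x + c • (g x - f x) = f x + (c * (t⁻¹ * s)) • a'
        rw [h7, add_sub_cancel_right, smul_smul]
    intro h9
    have h10 : Φ (x, (f + c • (g - f)) x) ∈ T ⊓ gr Φ (f + c • (g - f)) := by
      refine ⟨?_, (mem_gr' Φ).2 rfl⟩
      rw [h8]
      exact T.add_mem hb.1 (T.smul_mem _ ha.1)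
    rw [h9] at h10
    exact hne hx0 ((Submodule.mem_bot F).1 h10)
  -- 0 and 1
  have M0 : gr Φ 0 ∈ S := by
    have h1 : gr Φ 0 = B := by
      refine (gr_isLine Φ _).eq_of_le (hS.line B hB) ?_
      rintro v ⟨w, rfl⟩
      exact hΦB w
    rw [h1]
    exact hB
  have M1 : gr Φ LinearMap.id ∈ S := by
    have h1 : gr Φ LinearMap.id = C := by
      refine (gr_isLine Φ _).eq_of_le (hS.line C hC) ?_
      rintro v ⟨w, rfl⟩
      exact hΦC w
    rw [h1]
    exact hC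
  have Ms : ∀ f (c : F), gr Φ f ∈ S → gr Φ (c • f) ∈ S := by
    intro f c hf
    have h1 := G4 0 f c M0 hf
    rwa [zero_add, sub_zero] at h1
  have Ma : ∀ f g, gr Φ f ∈ S → gr Φ g ∈ S → gr Φ (f + g) ∈ S := by
    intro f g hf hg
    have h0 : (1 - γ) ≠ 0 := sub_ne_zero.2 (Ne.symm hγ1)
    have h1 := G4 ((1 - γ)⁻¹ • f) (γ⁻¹ • g) γ (Ms f _ hf) (Ms g _ hg)
    have h2 : (1 - γ)⁻¹ • f + γ • (γ⁻¹ • g - (1 - γ)⁻¹ • f) = f + g := by
      rw [smul_sub, smul_smul, mul_inv_cancel₀ hγ0, one_smul, smul_smul]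
      have h3 : (1 - γ)⁻¹ • f - (γ * (1 - γ)⁻¹) • f = f := by
        have h4 : (1 - γ)⁻¹ - γ * (1 - γ)⁻¹ = 1 := by
          rw [← one_sub_mul, mul_inv_cancel₀ h0]
        refine LinearMap.ext fun x => ?_
        show (1 - γ)⁻¹ • f x - (γ * (1 - γ)⁻¹) • f x = f x
        rw [← sub_smul, h4, one_smul]
      calc (1 - γ)⁻¹ • f + (g - (γ * (1 - γ)⁻¹) • f)
          = ((1 - γ)⁻¹ • f - (γ * (1 - γ)⁻¹) • f) + g := by abel
        _ = f + g := by rw [h3]
    rwa [h2] at h1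
  -- θ
  obtain ⟨w0, hw0e⟩ : ∃ w0 : Fin 2 → F, w0 = Pi.single 0 1 := ⟨_, rfl⟩
  obtain ⟨w1, hw1e⟩ : ∃ w1 : Fin 2 → F, w1 = Pi.single 1 1 := ⟨_, rfl⟩
  have hw0 : w0 ≠ 0 := by
    rw [hw0e]
    intro h
    have := congrFun h 0
    rw [Pi.single_eq_same] at this
    exact one_ne_zero this
  have hcoord : ∀ w : Fin 2 → F, w = w 0 • w0 + w 1 • w1 := by
    intro w
    rw [hw0e, hw1e]
    funext i
    fin_cases i <;> simp
  obtain ⟨θ, hθ, hθ0⟩ := G2 w0 w1 hw0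
  have hθne : ∀ w, w ≠ 0 → ∀ c : F, θ w ≠ c • w := by
    intro w hw c h
    have h1 : θ = c • LinearMap.id := G3 θ (c • LinearMap.id) w hθ (Ms _ c M1) hw h
    rw [h1, LinearMap.smul_apply, LinearMap.id_apply, hw0e, hw1e] at hθ0
    have h2 := congrFun hθ0 1
    simp at h2
  have hspan : ∀ f, gr Φ f ∈ S → ∃ x y : F, f = x • LinearMap.id + y • θ := by
    intro f hf
    refine ⟨f w0 0, f w0 1, G3 _ _ w0 hf (Ma _ _ (Ms _ _ M1) (Ms _ _ hθ)) hw0 ?_⟩
    rw [LinearMap.add_apply, LinearMap.smul_apply, LinearMap.smul_apply, LinearMap.id_apply, hθ0]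
    exact hcoord (f w0)
  obtain ⟨τ, δ, hτδ⟩ : ∃ τ δ : F, θ w1 = τ • w1 - δ • w0 := by
    refine ⟨θ w1 1, -(θ w1 0), ?_⟩
    rw [neg_smul, sub_neg_eq_add, add_comm]
    exact hcoord (θ w1)
  have hquad : ∀ w, θ (θ w) = τ • θ w - δ • w := by
    have h0 : θ (θ w0) = τ • θ w0 - δ • w0 := by rw [hθ0, hτδ]
    have h1 : θ (θ w1) = τ • θ w1 - δ • w1 := by
      have h2 := congrArg θ h0
      rw [hθ0, map_sub, map_smul, map_smul, hθ0] at h2
      exact h2
    intro w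
    rw [hcoord w]
    simp only [map_add, map_smul, h0, h1, smul_add, smul_sub, smul_smul]
    module
  -- J
  obtain ⟨J, hJ⟩ : ∃ J : Module.End F V, ∀ x y, J (Φ (x, y)) = Φ (θ x, θ y) := by
    refine ⟨(Φ : ((Fin 2 → F) × (Fin 2 → F)) →ₗ[F] V) ∘ₗ (θ.prodMap θ) ∘ₗ
      (Φ.symm : V →ₗ[F] ((Fin 2 → F) × (Fin 2 → F))), fun x y => ?_⟩
    rw [LinearMap.comp_apply, LinearMap.comp_apply, LinearEquiv.coe_coe, LinearEquiv.coe_coe,
      LinearEquiv.symm_apply_apply, LinearMap.prodMap_apply]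
  have hJne : ∀ v, v ≠ 0 → ∀ c : F, J v ≠ c • v := by
    intro v hv c h
    obtain ⟨⟨x, y⟩, rfl⟩ := Φ.surjective v
    rw [hJ, ← map_smul] at h
    have h1 : (θ x, θ y) = (c • x, c • y) := Φ.injective h
    have h2 : θ x = c • x := congrArg Prod.fst h1
    have h3 : θ y = c • y := congrArg Prod.snd h1
    have h4 : x = 0 := by
      by_contra hx
      exact hθne x hx c h2
    have h5 : y = 0 := by
      by_contra hy
      exact hθne y hy c h3
    apply hv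
    rw [h4, h5]
    exact map_zero Φ
  have hJS : ∀ U ∈ S, ∀ v ∈ U, J v ∈ U := by
    intro U hU v hv
    by_cases hUA : U = A
    · subst hUA
      obtain ⟨⟨x, y⟩, rfl⟩ := Φ.surjective v
      have hx := hinA x y hv
      subst hx
      rw [hJ, map_zero]
      exact hΦA _
    · obtain ⟨f, rfl⟩ := G1 U hU hUA
      obtain ⟨w, rfl⟩ := (mem_gr Φ).1 hv
      obtain ⟨x, y, rfl⟩ := hspan f hU
      rw [hJ, mem_gr']
      simp only [LinearMap.add_apply, LinearMap.smul_apply, LinearMap.id_apply, map_add, map_smul]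
  refine ⟨J, τ, δ, ⟨fun v => ?_, hJne, fun U hU => ⟨hJS U, fun h => ?_⟩⟩⟩
  · obtain ⟨⟨x, y⟩, rfl⟩ := Φ.surjective v
    rw [hJ, hJ, hquad, hquad, ← Φ.map_smul τ, ← Φ.map_smul δ, ← map_sub Φ]
    rfl
  · obtain ⟨v, hv, hv0⟩ := hU.exists_ne
    obtain ⟨T, ⟨hT, hvT⟩, -⟩ := hS.cover v hv0
    have hi : LinearIndependent F ![v, J v] := indep_of hv0 (hJne v hv0)
    rw [hU.eq_span hv (h v hv) hi, ← (hS.line T hT).eq_span hvT (hJS T hT v hvT) hi]
    exact hT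

end Pool.Agent.RegPack
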