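import Pool.Agent.Lib_MP_cd200f_co.Norm

/-!
# Odd primes
-/

namespace Pool.Agent.RegPack

open Module

variable {F V : Type*} [Field F] [AddCommGroup V] [Module F V]
variable {P : Set (Set (Submodule F V))} {g : V ≃ₗ[F] V}

theorem exists_gamma [Finite F] (h : 2 < Nat.card F) : ∃ γ : F, γ ≠ 0 ∧ γ ≠ 1 := by
  by_contra hcon
  push Not at hcon
  have h1 : (Set.univ : Set F) ⊆ {0, 1} := by
    intro x _
    by_cases hx : x = 0
    · exact Or.inl hx
    · exact Or.inr (hcon x hx)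
  have h2 := Set.ncard_le_ncard h1 (Set.toFinite _)
  rw [Set.ncard_univ] at h2
  have h3 : ({0, 1} : Set F).ncard ≤ 2 := by
    rw [Set.ncard_pair zero_ne_one]
  omega

theorem charP_of_dvd [Finite F] {r : ℕ} (hr : r.Prime) (h : r ∣ Nat.card F) : CharP F r := by
  have := Fintype.ofFinite F
  obtain ⟨p, hp⟩ := CharP.exists F
  obtain ⟨n, hpp, hn⟩ := FiniteField.card F p
  rw [Nat.card_eq_fintype_card, hn] at h
  have h1 := hr.dvd_of_dvd_pow h
  have h2 : r = p := (Nat.prime_dvd_prime_iff_eq hr hpp).1 h1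
  rw [h2]
  exact hp

/-- the odd primes that can divide the order of a collineation -/
theorem odd_prime [Finite F] (hF : 2 < Nat.card F) (hV : finrank F V = 4) (hP : IsPacking P)
    (hR : ∀ S ∈ P, IsRegular S) (hg : ∀ S ∈ P, im g S ∈ P) {r : ℕ} (hr : r.Prime) (hr2 : r ≠ 2)
    {c : F} (hc : ∀ v, (g ^ r) v = c • v) (hns : ¬ ∃ μ : F, ∀ v, g v = μ • v) :
    ¬ r ∣ Nat.card F * (Nat.card F - 1) ∧
      r ∣ (Nat.card F + 1) * (Nat.card F ^ 2 + Nat.card F + 1) := by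
  have := Fintype.ofFinite F
  have hfd : FiniteDimensional F V := FiniteDimensional.of_finrank_pos (by rw [hV]; norm_num)
  obtain ⟨γ, hγ0, hγ1⟩ := exists_gamma hF
  have hodd : Odd r := hr.odd_of_ne_two hr2
  have h1 : ¬ r ∣ Nat.card F := by
    intro h
    have := charP_of_dvd hr h
    exact hns (scalar_char hV hγ0 hγ1 hP hR hg hr hodd hc)
  have h2 : ¬ r ∣ Nat.card F - 1 := by
    intro h
    rw [Nat.card_eq_fintype_card] at h
    exact hns (scalar_split hV hγ0 hγ1 hP hR hg hodd h hc)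
  refine ⟨fun h => (hr.dvd_mul.1 h).elim h1 h2, ?_⟩
  obtain ⟨G, μ, hμ, hgG, hGr, him⟩ := exists_norm hV hodd hc
  have hGP : ∀ S ∈ P, im G S ∈ P := fun S hS => by
    rw [him]
    exact hg S hS
  have hG1 : ∃ v, G v ≠ v := by
    by_contra hcon
    push Not at hcon
    exact hns ⟨μ, fun v => by rw [hgG, hcon]⟩
  have h3 : ¬ r ∣ Nat.card F ^ 2 + 1 := by
    intro h
    obtain ⟨v, hv⟩ := hG1
    exact hv (one_of_dvd hV hγ0 hγ1 hP hR hGP hr hodd h hGr v)
  obtain ⟨D, hD, hmod⟩ := sub_modEq hV G hr hGr ⊤ (fun w _ => Submodule.mem_top)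
  obtain ⟨q, hq⟩ : ∃ q, q = Nat.card F := ⟨_, rfl⟩
  rw [← hq] at h1 h2 h3 hmod ⊢
  rw [finrank_top, hV] at hmod
  have hd : finrank F D < 4 := by
    have hle : finrank F D ≤ 4 := by rw [← hV]; exact Submodule.finrank_le D
    rcases hle.lt_or_eq with h | h
    · exact h
    · exfalso
      obtain ⟨v, hv⟩ := hG1
      have h4 : D = ⊤ := Submodule.eq_top_of_finrank_eq (by rw [h, hV])
      have h5 : v ∈ D := by rw [h4]; exact Submodule.mem_top
      exact hv ((hD v).1 h5).2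
  have hq1 : 1 ≤ q := by omega
  obtain ⟨s, rfl⟩ : ∃ s, q = s + 1 := ⟨q - 1, by omega⟩
  rw [Nat.add_sub_cancel] at h2
  have hmod' := (Nat.modEq_iff_dvd' (Nat.pow_le_pow_right hq1 hd.le)).1 hmod.symm
  have key : ∀ m, (s + 1) ^ m * (s * m.succ) = (s + 1) ^ m * (s * m.succ) := fun _ => rfl
  obtain ⟨k, hk⟩ : ∃ k, r ∣ (s + 1) ^ k * (s * ((s + 1 + 1) * ((s + 1) ^ 2 + (s + 1) + 1) *
      ((s + 1) ^ 2 + 1))) := by
    refine ⟨finrank F D, ?_⟩
    interval_cases hdd : finrank F D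
    · have e : (s + 1) ^ 4 - (s + 1) ^ 0 = s * ((s + 1 + 1) * ((s + 1) ^ 2 + 1)) := by
        have e1 : (s + 1) ^ 4 = s * ((s + 1 + 1) * ((s + 1) ^ 2 + 1)) + (s + 1) ^ 0 := by ring
        omega
      rw [e] at hmod'
      refine hmod'.trans ⟨(s + 1) ^ 2 + (s + 1) + 1, by ring⟩
    · have e : (s + 1) ^ 4 - (s + 1) ^ 1 = (s + 1) * (s * ((s + 1) ^ 2 + (s + 1) + 1)) := by
        have e1 : (s + 1) ^ 4 = (s + 1) * (s * ((s + 1) ^ 2 + (s + 1) + 1)) + (s + 1) ^ 1 := by ring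
        omega
      rw [e] at hmod'
      refine hmod'.trans ⟨(s + 1 + 1) * ((s + 1) ^ 2 + 1), by ring⟩
    · have e : (s + 1) ^ 4 - (s + 1) ^ 2 = (s + 1) ^ 2 * (s * (s + 1 + 1)) := by
        have e1 : (s + 1) ^ 4 = (s + 1) ^ 2 * (s * (s + 1 + 1)) + (s + 1) ^ 2 := by ring
        omega
      rw [e] at hmod'
      refine hmod'.trans ⟨((s + 1) ^ 2 + (s + 1) + 1) * ((s + 1) ^ 2 + 1), by ring⟩
    · have e : (s + 1) ^ 4 - (s + 1) ^ 3 = (s + 1) ^ 3 * s := by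
        have e1 : (s + 1) ^ 4 = (s + 1) ^ 3 * s + (s + 1) ^ 3 := by ring
        omega
      rw [e] at hmod'
      refine hmod'.trans ⟨(s + 1 + 1) * ((s + 1) ^ 2 + (s + 1) + 1) * ((s + 1) ^ 2 + 1), by ring⟩
  rcases hr.dvd_mul.1 hk with h | h
  · exact absurd (hr.dvd_of_dvd_pow h) h1
  · rcases hr.dvd_mul.1 h with h | h
    · exact absurd h h2
    · rcases hr.dvd_mul.1 h with h | h
      · exact h
      · exact absurd h h3

end Pool.Agent.RegPack
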