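import Pool.Agent.Lib_MP_cd200f_co.Cnt

/-!
# Normalisation; odd primes dividing `q ^ 2 + 1`
-/

namespace Pool.Agent.RegPack

open Module

variable {F V : Type*} [Field F] [AddCommGroup V] [Module F V]
variable {P : Set (Set (Submodule F V))} {g : V ≃ₗ[F] V}

theorem map_eq_of_smul {g G : V ≃ₗ[F] V} {μ : F} (hμ : μ ≠ 0) (h : ∀ v, g v = μ • G v)
    (U : Submodule F V) : U.map (G : V →ₗ[F] V) = U.map (g : V →ₗ[F] V) := by
  have h' : ∀ v, G v = μ⁻¹ • g v := fun v => by rw [h, smul_smul, inv_mul_cancel₀ hμ, one_smul]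
  apply le_antisymm
  · rintro _ ⟨u, hu, rfl⟩
    exact ⟨μ⁻¹ • u, U.smul_mem _ hu, by
      show g (μ⁻¹ • u) = G u
      rw [map_smul, h']⟩
  · rintro _ ⟨u, hu, rfl⟩
    exact ⟨μ • u, U.smul_mem _ hu, by
      show G (μ • u) = g u
      rw [map_smul, h]⟩

theorem im_eq_of_smul {g G : V ≃ₗ[F] V} {μ : F} (hμ : μ ≠ 0) (h : ∀ v, g v = μ • G v)
    (S : Set (Submodule F V)) : im G S = im g S := by
  unfold im
  refine Set.image_congr fun U _ => map_eq_of_smul hμ h U

theorem exists_norm (hV : finrank F V = 4) {r : ℕ} (hodd : Odd r) {c : F}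
    (hc : ∀ v, (g ^ r) v = c • v) : ∃ (G : V ≃ₗ[F] V) (μ : F), μ ≠ 0 ∧ (∀ v, g v = μ • G v) ∧
      (∀ v, (G ^ r) v = v) ∧ ∀ S : Set (Submodule F V), im G S = im g S := by
  obtain ⟨μ, hμ, hcμ⟩ := exists_mu hV hodd hc
  let G : V ≃ₗ[F] V := g.trans (LinearEquiv.smulOfNeZero F V μ⁻¹ (inv_ne_zero hμ))
  have hG : ∀ v, G v = μ⁻¹ • g v := fun v => rfl
  have hgG : ∀ v, g v = μ • G v := fun v => by
    rw [hG, smul_smul, mul_inv_cancel₀ hμ, one_smul]
  have hpow : ∀ (n : ℕ) (v : V), (g ^ n) v = μ ^ n • (G ^ n) v := by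
    intro n
    induction n with
    | zero =>
      intro v
      rw [pow_zero, pow_zero, pow_zero, one_smul]
    | succ n ih =>
      intro v
      rw [pow_succ, pow_succ, pow_succ]
      show (g ^ n) (g v) = (μ ^ n * μ) • (G ^ n) (G v)
      rw [ih, hgG, map_smul, smul_smul]
  refine ⟨G, μ, hμ, hgG, fun v => ?_, fun S => im_eq_of_smul hμ hgG S⟩
  have h1 := hpow r v
  rw [hc, hcμ] at h1
  exact (smul_right_injective V (pow_ne_zero r hμ) h1).symm

theorem im_mul (g h : V ≃ₗ[F] V) (S : Set (Submodule F V)) : im (g * h) S = im g (im h S) := by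
  unfold im
  rw [Set.image_image]
  refine Set.image_congr fun U _ => ?_
  rw [← Submodule.map_comp]
  rfl

theorem im_one (S : Set (Submodule F V)) : im (1 : V ≃ₗ[F] V) S = S := by
  unfold im
  have h1 : ∀ U : Submodule F V, U.map ((1 : V ≃ₗ[F] V) : V →ₗ[F] V) = U := fun U =>
    Submodule.map_id U
  simp only [h1, Set.image_id']

theorem im_pow_iter (g : V ≃ₗ[F] V) (n : ℕ) (S : Set (Submodule F V)) :
    im (g ^ n) S = (im g)^[n] S := by
  induction n generalizing S with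
  | zero => rw [pow_zero, im_one]; rfl
  | succ n ih => rw [pow_succ, im_mul, ih, Function.iterate_succ_apply]

/-- the number of fixed spreads -/
theorem fix_card [Finite F] (hV : finrank F V = 4) (hP : IsPacking P)
    (hg : ∀ S ∈ P, im g S ∈ P) {r : ℕ} (hr : r.Prime) (hgr : ∀ v, (g ^ r) v = v) :
    Nat.card F ^ 2 + Nat.card F + 1 ≡ Nat.card {S : P // im g S.1 = S.1} [MOD r] := by
  have hfin := finite_space (F := F) (V := V) hV
  have hfinS : Finite (Submodule F V) := Finite.of_injective _ SetLike.coe_injective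
  have hfinP : Finite P := inferInstance
  have hg1 : g ^ r = 1 := by
    ext v
    exact hgr v
  have hit : ∀ (n : ℕ) (S : P), (((fun S : P => (⟨im g S.1, hg S.1 S.2⟩ : P))^[n] S : P) :
      Set (Submodule F V)) = im (g ^ n) S.1 := by
    intro n
    induction n with
    | zero => intro S; rw [pow_zero, im_one]; rfl
    | succ n ih =>
      intro S
      rw [Function.iterate_succ_apply, ih, pow_succ, im_mul]
  have h1 := modEq_fix (fun S : P => (⟨im g S.1, hg S.1 S.2⟩ : P)) hr (fun S => Subtype.ext (by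
    rw [hit, hg1, im_one]))
  rw [card_packing hV hP] at h1
  refine h1.trans (Nat.ModEq.refl _ |>.trans ?_)
  have h2 : Nat.card {a : P // (⟨im g a.1, hg a.1 a.2⟩ : P) = a} =
      Nat.card {S : P // im g S.1 = S.1} :=
    Nat.card_congr (Equiv.subtypeEquivRight fun S => Subtype.ext_iff)
  rw [h2]

/-- no nontrivial collineation of odd prime order dividing `q ^ 2 + 1` -/
theorem one_of_dvd [Finite F] (hV : finrank F V = 4) {γ : F} (hγ0 : γ ≠ 0) (hγ1 : γ ≠ 1)
    (hP : IsPacking P) (hR : ∀ S ∈ P, IsRegular S) (hg : ∀ S ∈ P, im g S ∈ P) {r : ℕ}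
    (hr : r.Prime) (hodd : Odd r) (hdvd : r ∣ Nat.card F ^ 2 + 1) (hgr : ∀ v, (g ^ r) v = v)
    (v : V) : g v = v := by
  have := Fintype.ofFinite F
  have hfin := finite_space (F := F) (V := V) hV
  have hfd : FiniteDimensional F V := FiniteDimensional.of_finrank_pos (by rw [hV]; norm_num)
  have hnt : Nontrivial V := Module.nontrivial_of_finrank_pos (R := F) (by rw [hV]; norm_num)
  obtain ⟨q, hq⟩ : ∃ q, q = Nat.card F := ⟨_, rfl⟩
  rw [← hq] at hdvd
  have hq1 : 1 < q := by rw [hq]; exact Finite.one_lt_card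
  have hr2 : 2 < r := by
    rcases hr.two_le.lt_or_eq with h | h
    · exact h
    · rw [← h] at hodd
      exact absurd hodd (by decide)
  have hsq : (r : ℤ) ∣ (q : ℤ) ^ 2 + 1 := by exact_mod_cast hdvd
  have hrp : Prime (r : ℤ) := Nat.prime_iff_prime_int.1 hr
  have hn2 : ¬ (r : ℤ) ∣ 2 := by
    intro h
    have h1 := Int.le_of_dvd (by norm_num) h
    omega
  have hn1 : ¬ (r : ℤ) ∣ 1 := fun h => hn2 (h.trans (by norm_num))
  -- congruences
  have hmod : ∀ a b : ℕ, q ^ a ≡ q ^ b [MOD r] ↔ (r : ℤ) ∣ (q : ℤ) ^ b - (q : ℤ) ^ a := by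
    intro a b
    rw [Nat.modEq_iff_dvd]
    push_cast
    rfl
  by_contra hne
  -- no invariant line
  have hfix0 : ∀ u, g u = u → u = 0 := by
    obtain ⟨D, hD, hmodD⟩ := sub_modEq hV g hr hgr ⊤ (fun w _ => Submodule.mem_top)
    rw [← hq, finrank_top, hV, hmod] at hmodD
    have hle : finrank F D ≤ 4 := by rw [← hV]; exact Submodule.finrank_le D
    have h0 : finrank F D = 0 := by
      interval_cases hd : finrank F D
      · rfl
      · exfalso
        apply hn2
        have h1 : (r : ℤ) ∣ (q : ℤ) - 1 := by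
          have h2 : (q : ℤ) - 1 = ((q : ℤ) ^ 1 - (q : ℤ) ^ 4) + ((q : ℤ) ^ 2 + 1) * ((q : ℤ) ^ 2 - 1) := by
            ring
          rw [h2]
          exact dvd_add hmodD (hsq.mul_right _)
        have h3 : (2 : ℤ) = ((q : ℤ) ^ 2 + 1) - ((q : ℤ) - 1) * ((q : ℤ) + 1) := by ring
        rw [h3]
        exact dvd_sub hsq (h1.mul_right _)
      · exfalso
        apply hn2
        have h3 : (2 : ℤ) = ((q : ℤ) ^ 2 + 1) * (2 - (q : ℤ) ^ 2) - ((q : ℤ) ^ 2 - (q : ℤ) ^ 4) := by
          ring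
        rw [h3]
        exact dvd_sub (hsq.mul_right _) hmodD
      · exfalso
        apply hn2
        have h1 : (r : ℤ) ∣ (q : ℤ) + 1 := by
          have h2 : (q : ℤ) + 1 = ((q : ℤ) ^ 2 + 1) * ((q : ℤ) - (q : ℤ) ^ 2 + 1) -
              ((q : ℤ) ^ 3 - (q : ℤ) ^ 4) := by
            ring
          rw [h2]
          exact dvd_sub (hsq.mul_right _) hmodD
        have h3 : (2 : ℤ) = ((q : ℤ) ^ 2 + 1) - ((q : ℤ) + 1) * ((q : ℤ) - 1) := by ring
        rw [h3]
        exact dvd_sub hsq (h1.mul_right _)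
      · exfalso
        have h1 : D = ⊤ := Submodule.eq_top_of_finrank_eq (by rw [hd, hV])
        have h2 : v ∈ D := by rw [h1]; exact Submodule.mem_top
        exact hne ((hD v).1 h2).2
    intro u hu
    have h1 : D = ⊥ := Submodule.finrank_eq_zero.1 h0
    have h2 : u ∈ D := (hD u).2 ⟨Submodule.mem_top, hu⟩
    rw [h1, Submodule.mem_bot] at h2
    exact h2
  have hline : ∀ (k : ℕ) (U : Submodule F V), (k = 1 ∨ k = 2) → finrank F U = k →
      ¬ ∀ u ∈ U, g u ∈ U := by
    intro k U hk hU hinv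
    obtain ⟨D, hD, hmodD⟩ := sub_modEq hV g hr hgr U hinv
    have h1 : D = ⊥ := by
      rw [Submodule.eq_bot_iff]
      intro u hu
      exact hfix0 u ((hD u).1 hu).2
    rw [h1, finrank_bot, hU, ← hq, hmod] at hmodD
    apply hn2
    rcases hk with rfl | rfl
    · have h3 : (2 : ℤ) = ((q : ℤ) ^ 2 + 1) + ((q : ℤ) ^ 0 - (q : ℤ) ^ 1) * ((q : ℤ) + 1) := by ring
      rw [h3]
      exact dvd_add hsq (hmodD.mul_right _)
    · have h3 : (2 : ℤ) = ((q : ℤ) ^ 2 + 1) + ((q : ℤ) ^ 0 - (q : ℤ) ^ 2) := by ring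
      rw [h3]
      exact dvd_add hsq hmodD
  obtain ⟨k, hk⟩ := hodd
  have hcop : Nat.Coprime r (Fintype.card F ^ 2 - 1) := by
    rw [← Nat.card_eq_fintype_card, ← hq, Nat.Prime.coprime_iff_not_dvd hr]
    intro h
    apply hn2
    have h1 : ((q ^ 2 - 1 : ℕ) : ℤ) = (q : ℤ) ^ 2 - 1 := by
      have : 1 ≤ q ^ 2 := Nat.one_le_pow _ _ (by omega)
      push_cast [this]
      rfl
    have h2 : (r : ℤ) ∣ (q : ℤ) ^ 2 - 1 := by
      rw [← h1]
      exact_mod_cast h
    have h3 : (2 : ℤ) = ((q : ℤ) ^ 2 + 1) - ((q : ℤ) ^ 2 - 1) := by ring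
    rw [h3]
    exact dvd_sub hsq h2
  -- every fixed spread has its kernel in the span of `1` and `g + g⁻¹`
  have hker : ∀ S ∈ P, im g S = S → ∃ (J : Module.End F V) (τ δ x y : F), Ker S J τ δ ∧ y ≠ 0 ∧
      ∀ v, g v + g.symm v = x • v + y • J v := by
    intro S hS hgS
    obtain ⟨J, τ, δ, hJ⟩ := exists_ker hV hγ0 hγ1 (hP.spread S hS) (hR S hS)
    have hcomm := comm_odd hV (hP.spread S hS) hgS hJ (k := k) (c := 1) (by
      intro v
      rw [← hk, hgr, one_smul])
    obtain ⟨x, y, hxy⟩ := trace_ker hV hJ g hcomm hgr hcop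
    refine ⟨J, τ, δ, x, y, hJ, ?_, hxy⟩
    rintro rfl
    obtain ⟨u, hu⟩ := exists_ne (0 : V)
    have h1 : ∀ v, g (g v) = x • g v - v := by
      intro v
      have h2 := hxy (g v)
      rw [g.symm_apply_apply, zero_smul, add_zero] at h2
      exact eq_sub_of_add_eq h2
    have hinv : ∀ w ∈ Submodule.span F {u, g u}, g w ∈ Submodule.span F {u, g u} := by
      intro w hw
      rw [Submodule.mem_span_pair] at hw ⊢
      obtain ⟨a, b, rfl⟩ := hw
      refine ⟨-b, a + b * x, ?_⟩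
      rw [map_add, map_smul, map_smul, h1]
      module
    by_cases hi : ∃ c : F, g u = c • u
    · obtain ⟨c, hc⟩ := hi
      refine hline 1 (Submodule.span F {u}) (Or.inl rfl) (finrank_span_singleton hu) ?_
      intro w hw
      rw [Submodule.mem_span_singleton] at hw ⊢
      obtain ⟨a, rfl⟩ := hw
      exact ⟨a * c, by rw [map_smul, hc, smul_smul]⟩
    · push Not at hi
      exact hline 2 _ (Or.inr rfl) (isLine_span (indep_of hu hi)) hinv
  have huniq : ∀ S ∈ P, im g S = S → ∀ S' ∈ P, im g S' = S' → S ⊆ S' := by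
    intro S hS hgS S' hS' hgS' U hU
    obtain ⟨J, τ, δ, x, y, hJ, hy, hxy⟩ := hker S hS hgS
    obtain ⟨J', τ', δ', x', y', hJ', hy', hxy'⟩ := hker S' hS' hgS'
    have hUl := (hP.spread S hS).line U hU
    rw [hJ'.mem U hUl]
    intro u hu
    have h1 := (hJ.mem U hUl).1 hU u hu
    have h2 : y' • J' u = (x - x') • u + y • J u := by
      have h3 : x' • u + y' • J' u = x • u + y • J u := by rw [← hxy', hxy]
      have h4 : y' • J' u = (x • u + y • J u) - x' • u := by
        rw [← h3]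
        abel
      rw [h4]
      module
    have h3 : J' u = y'⁻¹ • ((x - x') • u + y • J u) := by
      rw [← h2, smul_smul, inv_mul_cancel₀ hy', one_smul]
    rw [h3]
    exact U.smul_mem _ (U.add_mem (U.smul_mem _ hu) (U.smul_mem _ h1))
  have hfinS : Finite (Submodule F V) := Finite.of_injective _ SetLike.coe_injective
  have hfinP : Finite P := inferInstance
  have hsub : Subsingleton {S : P // im g S.1 = S.1} := by
    refine ⟨fun a b => Subtype.ext (Subtype.ext ?_)⟩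
    exact Set.Subset.antisymm (huniq _ a.1.2 a.2 _ b.1.2 b.2) (huniq _ b.1.2 b.2 _ a.1.2 a.2)
  have hcard : Nat.card {S : P // im g S.1 = S.1} = 0 ∨
      Nat.card {S : P // im g S.1 = S.1} = 1 := by
    have := Finite.card_le_one_iff_subsingleton.2 hsub
    omega
  have hfc := fix_card hV hP hg hr hgr
  rw [← hq, Nat.modEq_iff_dvd] at hfc
  push_cast at hfc
  rcases hcard with h0 | h0
  · rw [h0] at hfc
    have h1 : (r : ℤ) ∣ (q : ℤ) := by
      have h2 : (q : ℤ) = -(((0 : ℕ) : ℤ) - ((q : ℤ) ^ 2 + (q : ℤ) + 1)) - ((q : ℤ) ^ 2 + 1) := by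
        push_cast
        ring
      rw [h2]
      exact dvd_sub ((dvd_neg).2 hfc) hsq
    apply hn1
    have h3 : (1 : ℤ) = ((q : ℤ) ^ 2 + 1) - (q : ℤ) * (q : ℤ) := by ring
    rw [h3]
    exact dvd_sub hsq (h1.mul_right _)
  · rw [h0] at hfc
    have h1 : (r : ℤ) ∣ (q : ℤ) - 1 := by
      have h2 : (q : ℤ) - 1 = -(((1 : ℕ) : ℤ) - ((q : ℤ) ^ 2 + (q : ℤ) + 1)) - ((q : ℤ) ^ 2 + 1) := by
        push_cast
        ring
      rw [h2]
      exact dvd_sub ((dvd_neg).2 hfc) hsq
    apply hn2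
    have h3 : (2 : ℤ) = ((q : ℤ) ^ 2 + 1) - ((q : ℤ) - 1) * ((q : ℤ) + 1) := by ring
    rw [h3]
    exact dvd_sub hsq (h1.mul_right _)

end Pool.Agent.RegPack
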