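import Pool.Agent.Lib_MP_cd200f_co.Tr

/-!
# Counting
-/

namespace Pool.Agent.RegPack

open Module

/-- the number of fixed points of a map of prime order -/
theorem modEq_fix {α : Type*} [Finite α] (f : α → α) {r : ℕ} (hr : r.Prime)
    (hf : ∀ a, f^[r] a = a) : Nat.card α ≡ Nat.card {a // f a = a} [MOD r] := by
  classical
  have := Fintype.ofFinite α
  have hfact : Fact r.Prime := ⟨hr⟩
  have hpow : ∀ (n : ℕ), (show Function.End α from f) ^ n = (f^[n] : Function.End α) := by
    intro n
    induction n with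
    | zero => rfl
    | succ n ih =>
      rw [pow_succ, ih]
      rfl
  have h1 : (show Function.End α from f) ^ r ^ 1 = 1 := by
    rw [pow_one, hpow]
    funext a
    exact hf a
  have h2 := Equiv.Perm.card_fixedPoints_modEq h1
  have h3 : Nat.card {a // f a = a} = Fintype.card (Function.fixedPoints f) := by
    rw [← Nat.card_eq_fintype_card]
    rfl
  rw [h3, Nat.card_eq_fintype_card]
  exact h2

variable {F V : Type*} [Field F] [AddCommGroup V] [Module F V]

theorem finite_space [Finite F] (hV : finrank F V = 4) : Finite V := by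
  have hfd : FiniteDimensional F V := FiniteDimensional.of_finrank_pos (by rw [hV]; norm_num)
  exact Module.finite_of_finite F

/-- vectors in an invariant subspace modulo `r` -/
theorem sub_modEq [Finite F] (hV : finrank F V = 4) (G : V ≃ₗ[F] V) {r : ℕ} (hr : r.Prime)
    (hG : ∀ v, (G ^ r) v = v) (W : Submodule F V) (hW : ∀ w ∈ W, G w ∈ W) :
    ∃ D : Submodule F V, (∀ v, v ∈ D ↔ v ∈ W ∧ G v = v) ∧
      Nat.card F ^ finrank F W ≡ Nat.card F ^ finrank F D [MOD r] := by
  have hfin := finite_space (F := F) (V := V) hV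
  have hfd : FiniteDimensional F V := FiniteDimensional.of_finrank_pos (by rw [hV]; norm_num)
  obtain ⟨D, hD⟩ : ∃ D : Submodule F V, ∀ v, v ∈ D ↔ v ∈ W ∧ G v = v :=
    ⟨W ⊓ LinearMap.ker ((G : V →ₗ[F] V) - LinearMap.id), fun v => by
      rw [Submodule.mem_inf, LinearMap.mem_ker, LinearMap.sub_apply, sub_eq_zero]
      rfl⟩
  refine ⟨D, hD, ?_⟩
  rw [← Module.natCard_eq_pow_finrank (K := F) (V := W),
    ← Module.natCard_eq_pow_finrank (K := F) (V := D)]
  have hit : ∀ (n : ℕ) (w : W), (((fun w : W => (⟨G w, hW w w.2⟩ : W))^[n] w : W) : V) =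
      (G ^ n) w := by
    intro n
    induction n with
    | zero => intro w; rfl
    | succ n ih =>
      intro w
      rw [Function.iterate_succ_apply, ih, pow_succ]
      rfl
  have h1 := modEq_fix (fun w : W => (⟨G w, hW w w.2⟩ : W)) hr (fun w => Subtype.ext (by
    rw [hit, hG]))
  have h2 : Nat.card {a : W // (⟨G a, hW a a.2⟩ : W) = a} = Nat.card D := by
    refine Nat.card_congr ⟨fun a => ⟨a.1.1, (hD _).2 ⟨a.1.2, congrArg Subtype.val a.2⟩⟩,
      fun d => ⟨⟨d.1, ((hD _).1 d.2).1⟩, Subtype.ext ((hD _).1 d.2).2⟩, fun a => rfl, fun d => rfl⟩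
  rw [h2] at h1
  exact h1

/-- the number of spreads of a packing -/
theorem card_packing [Finite F] (hV : finrank F V = 4) {P : Set (Set (Submodule F V))}
    (hP : IsPacking P) : Nat.card P = Nat.card F ^ 2 + Nat.card F + 1 := by
  have hfin := finite_space (F := F) (V := V) hV
  have hfd : FiniteDimensional F V := FiniteDimensional.of_finrank_pos (by rw [hV]; norm_num)
  have hnt : Nontrivial V := Module.nontrivial_of_finrank_pos (R := F) (by rw [hV]; norm_num)
  have hq : 1 < Nat.card F := Finite.one_lt_card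
  obtain ⟨v₀, hv₀⟩ := exists_ne (0 : V)
  have hfinS : Finite (Submodule F V) := Finite.of_injective _ SetLike.coe_injective
  have hfinP : Finite P := inferInstance
  have := Fintype.ofFinite P
  obtain ⟨L, hL⟩ : ∃ L : Submodule F V, L = Submodule.span F {v₀} := ⟨_, rfl⟩
  have hLc : (L : Set V).ncard = Nat.card F := by
    rw [hL]
    show Nat.card (Submodule.span F {v₀}) = _
    rw [Module.natCard_eq_pow_finrank (K := F), finrank_span_singleton hv₀, pow_one]
  have hvL : v₀ ∈ L := by
    rw [hL]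
    exact Submodule.mem_span_singleton_self v₀
  choose U hU hU2 using fun S : P => (hP.spread S.1 S.2).cover v₀ hv₀
  have hUl : ∀ S, IsLine (U S) := fun S => (hP.spread S.1 S.2).line _ (hU S).1
  have hLU : ∀ S, L ≤ U S := fun S => by
    rw [hL, Submodule.span_le, Set.singleton_subset_iff]
    exact (hU S).2
  have hspan : ∀ w, w ∉ L → IsLine (Submodule.span F {v₀, w}) := by
    intro w hw
    refine isLine_span (indep_of hv₀ fun c hc => hw ?_)
    rw [hc]
    exact L.smul_mem c hvL
  have hspanU : ∀ S w, w ∈ U S → w ∉ L → Submodule.span F {v₀, w} = U S := by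
    intro S w hw hwL
    refine (hspan w hwL).eq_of_le (hUl S) ?_
    rw [Submodule.span_le]
    rintro x (rfl | rfl)
    · exact (hU S).2
    · exact hw
  have h1 : Nat.card (Σ S : P, {w : V // w ∈ U S ∧ w ∉ L}) = Nat.card {w : V // w ∉ L} := by
    refine Nat.card_eq_of_bijective
      (fun x : (Σ S : P, {w : V // w ∈ U S ∧ w ∉ L}) => (⟨x.2.1, x.2.2.2⟩ : {w : V // w ∉ L})) ⟨?_, ?_⟩
    · rintro ⟨S, w, hw1, hw2⟩ ⟨S', w', hw1', hw2'⟩ h
      have hww : w = w' := congrArg Subtype.val h
      subst hww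
      have h2 : U S = U S' := by
        rw [← hspanU S w hw1 hw2, hspanU S' w hw1' hw2]
      have h3 : S = S' := by
        refine Subtype.ext ((hP.cover (U S) (hUl S)).unique ⟨S.2, (hU S).1⟩ ⟨S'.2, ?_⟩)
        rw [h2]
        exact (hU S').1
      subst h3
      rfl
    · rintro ⟨w, hw⟩
      obtain ⟨S, ⟨hS, hSw⟩, -⟩ := hP.cover _ (hspan w hw)
      have h2 : Submodule.span F {v₀, w} = U ⟨S, hS⟩ :=
        hU2 ⟨S, hS⟩ _ ⟨hSw, Submodule.subset_span (by simp)⟩
      exact ⟨⟨⟨S, hS⟩, w, by rw [← h2]; exact Submodule.subset_span (by simp), hw⟩, rfl⟩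
  have h2 : ∀ S, Nat.card {w : V // w ∈ U S ∧ w ∉ L} = Nat.card F ^ 2 - Nat.card F := by
    intro S
    have h3 : ((U S : Set V) \ (L : Set V)).ncard = (U S : Set V).ncard - (L : Set V).ncard :=
      Set.ncard_sdiff (hLU S) (Set.toFinite _)
    rw [hLc] at h3
    have h4 : (U S : Set V).ncard = Nat.card F ^ 2 := by
      show Nat.card (U S) = _
      rw [Module.natCard_eq_pow_finrank (K := F), hUl S]
    rw [h4] at h3
    exact h3
  have h3 : Nat.card {w : V // w ∉ L} = Nat.card F ^ 4 - Nat.card F := by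
    have h4 : ((Set.univ : Set V) \ (L : Set V)).ncard = (Set.univ : Set V).ncard -
        (L : Set V).ncard := Set.ncard_sdiff (Set.subset_univ _) (Set.toFinite _)
    rw [hLc, Set.ncard_univ, Module.natCard_eq_pow_finrank (K := F) (V := V), hV] at h4
    rw [← h4]
    show Nat.card {w : V // w ∉ L} = Nat.card {w : V // w ∈ (Set.univ : Set V) \ (L : Set V)}
    refine Nat.card_congr (Equiv.subtypeEquivRight fun w => ?_)
    simp
  rw [Nat.card_sigma, h3] at h1
  simp only [h2] at h1
  rw [Finset.sum_const, Finset.card_univ, ← Nat.card_eq_fintype_card, smul_eq_mul] at h1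
  obtain ⟨d, hd⟩ : ∃ d, Nat.card F ^ 2 = Nat.card F + d ∧ 0 < d := by
    refine ⟨Nat.card F ^ 2 - Nat.card F, ?_, ?_⟩
    · have : Nat.card F ≤ Nat.card F ^ 2 := by nlinarith
      omega
    · have : Nat.card F < Nat.card F ^ 2 := by nlinarith
      omega
  obtain ⟨hd, hd0⟩ := hd
  have h5 : Nat.card F ^ 2 - Nat.card F = d := by omega
  have h6 : Nat.card F ^ 4 - Nat.card F = (Nat.card F ^ 2 + Nat.card F + 1) * d := by
    have h7 : Nat.card F ^ 4 = (Nat.card F ^ 2 + Nat.card F + 1) * d + Nat.card F := by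
      have h8 : Nat.card F ^ 4 = Nat.card F ^ 2 * Nat.card F ^ 2 := by ring
      have h9 : Nat.card F * Nat.card F = Nat.card F + d := by rw [← hd]; ring
      nlinarith [h8, h9, hd]
    omega
  rw [h5, h6] at h1
  exact Nat.eq_of_mul_eq_mul_right hd0 h1

end Pool.Agent.RegPack
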