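import Pool.Agent.Lib_MP_cd200f_co.Trans

/-!
# Involutions in characteristic two
-/

namespace Pool.Agent.RegPack

open Module

variable {F V : Type*} [Field F] [AddCommGroup V] [Module F V]
variable {P : Set (Set (Submodule F V))} {g : V ≃ₗ[F] V}

/-- the fixed points of an involution are the points of a line (`q` even) -/
theorem inv_even [Finite F] (hF : 2 < Nat.card F) (h2 : (2 : F) = 0) (hV : finrank F V = 4)
    (hP : IsPacking P) (hR : ∀ S ∈ P, IsRegular S) (hg : ∀ S ∈ P, im g S ∈ P)
    {c : F} (hc : ∀ v, g (g v) = c • v) (hns : ¬ ∃ μ : F, ∀ v, g v = μ • v) :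
    ∃ U : Submodule F V, finrank F U = 2 ∧ ∀ v, v ∈ U ↔ ∃ x : F, g v = x • v := by
  have := Fintype.ofFinite F
  have hfd : FiniteDimensional F V := FiniteDimensional.of_finrank_pos (by rw [hV]; norm_num)
  have h4 : ringChar F = 2 := by
    have h5 : ringChar F ∣ 2 := (ringChar.spec F 2).1 (by exact_mod_cast h2)
    rcases (Nat.dvd_prime Nat.prime_two).1 h5 with h6 | h6
    · exfalso
      have h7 : ((1 : ℕ) : F) = 0 := (ringChar.spec F 1).2 (by rw [h6])
      rw [Nat.cast_one] at h7
      exact one_ne_zero h7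
    · exact h6
  obtain ⟨μ, hμ⟩ := FiniteField.isSquare_of_char_two h4 c
  obtain ⟨N, hN⟩ : ∃ N : V →ₗ[F] V, N = (g : V →ₗ[F] V) - μ • LinearMap.id := ⟨_, rfl⟩
  have hNv : ∀ v, N v = g v - μ • v := fun v => by rw [hN]; rfl
  have hker : ∀ v, v ∈ LinearMap.ker N ↔ g v = μ • v := fun v => by
    rw [LinearMap.mem_ker, hNv, sub_eq_zero]
  have hle : LinearMap.range N ≤ LinearMap.ker N := by
    rintro _ ⟨v, rfl⟩
    rw [hker, hNv, map_sub, map_smul, hc, hμ, ← sub_eq_zero]
    have h5 : (μ * μ) • v - μ • g v - μ • (g v - μ • v) = (2 : F) • (μ • μ • v - μ • g v) := by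
      module
    rw [h5, h2, zero_smul]
  have h5 := LinearMap.finrank_range_add_finrank_ker N
  have h6 := Submodule.finrank_mono hle
  have h7 : finrank F (LinearMap.ker N) ≤ 4 := by
    rw [← hV]
    exact Submodule.finrank_le _
  have h8 : finrank F (LinearMap.ker N) ≠ 4 := by
    intro h
    have h9 : LinearMap.ker N = ⊤ := Submodule.eq_top_of_finrank_eq (by rw [h, hV])
    apply hns
    refine ⟨μ, fun v => (hker v).1 ?_⟩
    rw [h9]
    exact Submodule.mem_top
  have h10 : finrank F (LinearMap.ker N) ≠ 3 := by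
    rw [hN]
    exact no_persp hF hV hP hR hg μ
  rw [hV] at h5
  refine ⟨LinearMap.ker N, by omega, fun v => ?_⟩
  rw [hker]
  constructor
  · intro h
    exact ⟨μ, h⟩
  · rintro ⟨x, hx⟩
    by_cases hv : v = 0
    · rw [hv, map_zero, smul_zero]
    · have h11 := hc v
      rw [hx, map_smul, hx, smul_smul, hμ] at h11
      have h12 : x * x = μ * μ := smul_left_injective F hv h11
      have h13 : (x - μ) * (x - μ) = 0 := by
        linear_combination h12 - (x * μ - μ * μ) * h2
      have h14 : x = μ := sub_eq_zero.1 (mul_self_eq_zero.1 h13)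
      rw [hx, h14]

end Pool.Agent.RegPack
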