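import Pool.Agent.Lib_MP_cd200f_co.Com

/-!
# Fixed spreads of a packing; invariant lines
-/

namespace Pool.Agent.RegPack

open Module

variable {F V : Type*} [Field F] [AddCommGroup V] [Module F V]
variable {P : Set (Set (Submodule F V))} {g : V ≃ₗ[F] V}

/-- the spread of an invariant line is fixed; its kernel -/
theorem exists_fix (hV : finrank F V = 4) {γ : F} (hγ0 : γ ≠ 0) (hγ1 : γ ≠ 1) (hP : IsPacking P)
    (hR : ∀ S ∈ P, IsRegular S) (hg : ∀ S ∈ P, im g S ∈ P) {U : Submodule F V} (hU : IsLine U)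
    (hgU : ∀ u ∈ U, g u ∈ U) : ∃ (S : Set (Submodule F V)) (J : Module.End F V) (τ δ : F),
      S ∈ P ∧ U ∈ S ∧ im g S = S ∧ IsSpread S ∧ Ker S J τ δ := by
  obtain ⟨S, ⟨hS, hUS⟩, huniq⟩ := hP.cover U hU
  obtain ⟨J, τ, δ, hJ⟩ := exists_ker hV hγ0 hγ1 (hP.spread S hS) (hR S hS)
  refine ⟨S, J, τ, δ, hS, hUS, ?_, hP.spread S hS, hJ⟩
  exact huniq _ ⟨hg S hS, U, hUS, map_eq_of_inv g hU hgU⟩

/-- no Jordan block (Lemma C) -/
theorem no_block (hV : finrank F V = 4) {γ : F} (hγ0 : γ ≠ 0) (hγ1 : γ ≠ 1) (hP : IsPacking P)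
    (hR : ∀ S ∈ P, IsRegular S) (hg : ∀ S ∈ P, im g S ∈ P) {k : ℕ} {c : F}
    (hc : ∀ v, (g ^ (2 * k + 1)) v = c • v) {μ : F} {v w : V} (hw : g v = μ • v + w)
    (hw2 : g w = μ • w) : w = 0 := by
  by_contra hw0
  have hv0 : v ≠ 0 := by
    rintro rfl
    rw [map_zero, smul_zero, zero_add] at hw
    exact hw0 hw.symm
  have hi : LinearIndependent F ![w, v] := by
    refine indep_of hw0 fun a ha => ?_
    rw [ha, map_smul, hw2] at hw
    have h1 : w = 0 := by
      have h2 : a • μ • w - μ • a • w = 0 := by module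
      rw [hw] at h2
      rw [← h2]
      abel
    exact hw0 h1
  have hU := isLine_span hi
  have hwU : w ∈ Submodule.span F {w, v} := Submodule.subset_span (by simp)
  have hvU : v ∈ Submodule.span F {w, v} := Submodule.subset_span (by simp)
  have hgU : ∀ u ∈ Submodule.span F {w, v}, g u ∈ Submodule.span F {w, v} := by
    intro u hu
    rw [Submodule.mem_span_pair] at hu
    obtain ⟨a, b, rfl⟩ := hu
    rw [map_add, map_smul, map_smul, hw, hw2]
    exact Submodule.add_mem _ (Submodule.smul_mem _ _ (Submodule.smul_mem _ _ hwU))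
      (Submodule.smul_mem _ _ (Submodule.add_mem _ (Submodule.smul_mem _ _ hvU) hwU))
  obtain ⟨S, J, τ, δ, hS, hUS, hgS, hSS, hJ⟩ := exists_fix hV hγ0 hγ1 hP hR hg hU hgU
  have hcomm := comm_odd hV hSS hgS hJ hc
  have h1 := (hJ.mem _ hU).1 hUS w hwU
  rw [Submodule.mem_span_pair] at h1
  obtain ⟨a, b, hab⟩ := h1
  have h2 := hcomm w
  rw [hw2, map_smul, ← hab, map_add, map_smul, map_smul, hw, hw2] at h2
  have h3 : b • w = 0 := by
    have h4 : a • μ • w + b • (μ • v + w) - μ • (a • w + b • v) = b • w := by module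
    rw [← h4, h2, sub_self]
  have hb : b = 0 := (smul_eq_zero.1 h3).resolve_right hw0
  rw [hb, zero_smul, add_zero] at hab
  exact hJ.ne w hw0 a hab.symm

/-- two eigenvectors with different eigenvalues (Lemma D), commuting case -/
theorem no_eig2 {S : Set (Submodule F V)} {J : Module.End F V} {τ δ : F} (hJ : Ker S J τ δ)
    {u v : V} (hu : u ≠ 0) (hv : v ≠ 0) {x y : F} (hxy : x ≠ y) (hgu : g u = x • u)
    (hgv : g v = y • v) {U : Submodule F V} (hU : U ∈ S) (hUl : IsLine U) (huU : u ∈ U)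
    (hvU : v ∈ U) (hcomm : ∀ v, g (J v) = J (g v)) : False := by
  have hi : LinearIndependent F ![u, v] := by
    refine indep_of hu fun a ha => ?_
    have h1 := hgv
    rw [ha, map_smul, hgu] at h1
    have h2 : (x - y) • (a • u) = 0 := by
      have h3 : (x - y) • (a • u) = a • x • u - y • a • u := by module
      rw [h3, h1, sub_self]
    rw [← ha] at h2
    exact hv ((smul_eq_zero.1 h2).resolve_left (sub_ne_zero.2 hxy))
  obtain ⟨a, b, hab⟩ := hUl.exists_coef huU hvU hi ((hJ.mem _ hUl).1 hU u huU)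
  have h2 := hcomm u
  rw [hgu, map_smul, hab, map_add, map_smul, map_smul, hgu, hgv] at h2
  have h3 : (b * (x - y)) • v = 0 := by
    have h4 : x • (a • u + b • v) - (a • x • u + b • y • v) = (b * (x - y)) • v := by module
    rw [← h4, h2, sub_self]
  have h5 : b * (x - y) = 0 := (smul_eq_zero.1 h3).resolve_right hv
  have hb : b = 0 := (mul_eq_zero.1 h5).resolve_right (sub_ne_zero.2 hxy)
  rw [hb, zero_smul, add_zero] at hab
  exact hJ.ne u hu a hab

/-- all eigenvalues are equal (odd order) -/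
theorem eig_unique (hV : finrank F V = 4) {γ : F} (hγ0 : γ ≠ 0) (hγ1 : γ ≠ 1) (hP : IsPacking P)
    (hR : ∀ S ∈ P, IsRegular S) (hg : ∀ S ∈ P, im g S ∈ P) {k : ℕ} {c : F}
    (hc : ∀ v, (g ^ (2 * k + 1)) v = c • v) {u v : V} (hu : u ≠ 0) (hv : v ≠ 0) {x y : F}
    (hgu : g u = x • u) (hgv : g v = y • v) : x = y := by
  by_contra hxy
  have hi : LinearIndependent F ![u, v] := by
    refine indep_of hu fun a ha => ?_
    have h1 := hgv
    rw [ha, map_smul, hgu] at h1
    have h2 : (x - y) • (a • u) = 0 := by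
      have h3 : (x - y) • (a • u) = a • x • u - y • a • u := by module
      rw [h3, h1, sub_self]
    rw [← ha] at h2
    exact hv ((smul_eq_zero.1 h2).resolve_left (sub_ne_zero.2 hxy))
  have hU := isLine_span hi
  have huU : u ∈ Submodule.span F {u, v} := Submodule.subset_span (by simp)
  have hvU : v ∈ Submodule.span F {u, v} := Submodule.subset_span (by simp)
  have hgU : ∀ w ∈ Submodule.span F {u, v}, g w ∈ Submodule.span F {u, v} := by
    intro w hw
    rw [Submodule.mem_span_pair] at hw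
    obtain ⟨a, b, rfl⟩ := hw
    rw [map_add, map_smul, map_smul, hgu, hgv]
    exact Submodule.add_mem _ (Submodule.smul_mem _ _ (Submodule.smul_mem _ _ huU))
      (Submodule.smul_mem _ _ (Submodule.smul_mem _ _ hvU))
  obtain ⟨S, J, τ, δ, hS, hUS, hgS, hSS, hJ⟩ := exists_fix hV hγ0 hγ1 hP hR hg hU hgU
  exact no_eig2 hJ hu hv hxy hgu hgv hUS hU huU hvU (comm_odd hV hSS hgS hJ hc)

end Pool.Agent.RegPack
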