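import Pool.Agent.Lib_MP_cd200f_co.Persp

/-!
# Involutions with fixed points
-/

namespace Pool.Agent.RegPack

open Module

variable {F V : Type*} [Field F] [AddCommGroup V] [Module F V]
variable {P : Set (Set (Submodule F V))} {g : V ≃ₗ[F] V}

theorem basis2 {W : Submodule F V} (hW : finrank F W = 2) : ∃ u₀ u₁ : V, u₀ ∈ W ∧ u₁ ∈ W ∧
    (∀ w ∈ W, ∃ a b : F, w = a • u₀ + b • u₁) ∧ ∀ a b : F, a • u₀ + b • u₁ = 0 → a = 0 ∧ b = 0 := by
  have hfd : FiniteDimensional F W := FiniteDimensional.of_finrank_pos (by rw [hW]; norm_num)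
  obtain ⟨b⟩ : Nonempty (Basis (Fin 2) F W) := ⟨Module.finBasisOfFinrankEq F W hW⟩
  refine ⟨(b 0 : W), (b 1 : W), (b 0).2, (b 1).2, fun w hw => ?_, fun s t hst => ?_⟩
  · refine ⟨b.repr ⟨w, hw⟩ 0, b.repr ⟨w, hw⟩ 1, ?_⟩
    have h1 := b.sum_repr ⟨w, hw⟩
    rw [Fin.sum_univ_two] at h1
    exact (congrArg Subtype.val h1).symm
  · have h1 : s • b 0 + t • b 1 = 0 := Subtype.ext hst
    have h2 := Fintype.linearIndependent_iff.1 b.linearIndependent ![s, t] (by
      rw [Fin.sum_univ_two]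
      exact h1)
    exact ⟨h2 0, h2 1⟩

/-- the matrix of `A` in the basis `u₀, u₁, v₀, v₁` -/
structure Co (u₀ u₁ v₀ v₁ : V) (A : Module.End F V) (D ρ a₁ a₂ a₃ a₄ : F) : Prop where
  sq : ∀ v, A (A v) = D • v
  e1 : A u₀ = a₁ • v₀ + a₂ • v₁
  e2 : A u₁ = a₃ • v₀ + a₄ • v₁
  e3 : A v₀ = ρ • (a₄ • u₀ - a₂ • u₁)
  e4 : A v₁ = ρ • (a₁ • u₁ - a₃ • u₀)

theorem Co.anticomm {u₀ u₁ v₀ v₁ : V} {A B : Module.End F V} {D ρ a₁ a₂ a₃ a₄ D' b₁ b₂ b₃ b₄ : F}
    (hA : Co u₀ u₁ v₀ v₁ A D ρ a₁ a₂ a₃ a₄) (hB : Co u₀ u₁ v₀ v₁ B D' ρ b₁ b₂ b₃ b₄)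
    (hspan : ∀ v, ∃ c₁ c₂ c₃ c₄ : F, v = c₁ • u₀ + c₂ • u₁ + (c₃ • v₀ + c₄ • v₁)) :
    ∃ t : F, ∀ v, A (B v) + B (A v) = t • v := by
  refine ⟨ρ * (a₁ * b₄ + a₄ * b₁ - a₂ * b₃ - a₃ * b₂), fun v => ?_⟩
  obtain ⟨c₁, c₂, c₃, c₄, rfl⟩ := hspan v
  simp only [map_add, map_smul, map_sub, hA.e1, hA.e2, hA.e3, hA.e4, hB.e1, hB.e2, hB.e3, hB.e4]
  module

/-- two kernels which anticommute up to a scalar have a common line -/
theorem common_of_anti [Finite F] {S S' : Set (Submodule F V)} {J J' : Module.End F V}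
    {τ δ τ' δ' : F} (h2 : (2 : F) ≠ 0) (h : Ker S J τ δ) (h' : Ker S' J' τ' δ')
    {A B : Module.End F V} {D t y z : F} (hA : ∀ v, A v = (2 : F) • J v - τ • v)
    (hB : ∀ v, B v = (2 : F) • J' v - τ' • v) (hD : ∀ v, A (A v) = D • v)
    (ht : ∀ v, A (B v) + B (A v) = t • v) {w : V} (hw : w ≠ 0)
    (hwz : y • A w + B w = z • w) : ∃ U, IsLine U ∧ U ∈ S ∧ U ∈ S' := by
  have hwU : w ∈ Submodule.span F {w, J w} := Submodule.subset_span (by simp)
  have hJwU : J w ∈ Submodule.span F {w, J w} := Submodule.subset_span (by simp)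
  have hAwU : A w ∈ Submodule.span F {w, J w} := by
    rw [hA]
    exact Submodule.sub_mem _ (Submodule.smul_mem _ _ hJwU) (Submodule.smul_mem _ _ hwU)
  have hBw : B w = z • w - y • A w := eq_sub_of_add_eq' hwz
  have hBwU : B w ∈ Submodule.span F {w, J w} := by
    rw [hBw]
    exact Submodule.sub_mem _ (Submodule.smul_mem _ _ hwU) (Submodule.smul_mem _ _ hAwU)
  have hBAw : B (A w) ∈ Submodule.span F {w, J w} := by
    have h1 : B (A w) = t • w - A (B w) := eq_sub_of_add_eq' (ht w)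
    rw [h1, hBw, map_sub, map_smul, map_smul, hD]
    exact Submodule.sub_mem _ (Submodule.smul_mem _ _ hwU) (Submodule.sub_mem _
      (Submodule.smul_mem _ _ hAwU) (Submodule.smul_mem _ _ (Submodule.smul_mem _ _ hwU)))
  have hJ' : ∀ v, J' v = (2 : F)⁻¹ • (B v + τ' • v) := by
    intro v
    rw [hB, sub_add_cancel, smul_smul, inv_mul_cancel₀ h2, one_smul]
  have hJJ : J w = (2 : F)⁻¹ • (A w + τ • w) := by
    rw [hA, sub_add_cancel, smul_smul, inv_mul_cancel₀ h2, one_smul]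
  have h1 : J' w ∈ Submodule.span F {w, J w} := by
    rw [hJ']
    exact Submodule.smul_mem _ _ (Submodule.add_mem _ hBwU (Submodule.smul_mem _ _ hwU))
  have h3 : J' (A w) ∈ Submodule.span F {w, J w} := by
    rw [hJ']
    exact Submodule.smul_mem _ _ (Submodule.add_mem _ hBAw (Submodule.smul_mem _ _ hAwU))
  refine h.common h' hw h1 ?_
  have h4 : J' (J w) = (2 : F)⁻¹ • (J' (A w) + τ • J' w) := by
    conv_lhs => rw [hJJ]
    rw [map_smul, map_add, map_smul]
  rw [h4]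
  exact Submodule.smul_mem _ _ (Submodule.add_mem _ h3 (Submodule.smul_mem _ _ h1))

/-- an involutory collineation which preserves a regular packing has no fixed points (`q` odd) -/
theorem no_inv [Finite F] (hF : 2 < Nat.card F) (h2 : (2 : F) ≠ 0) (hV : finrank F V = 4)
    (hP : IsPacking P) (hR : ∀ S ∈ P, IsRegular S) (hg : ∀ S ∈ P, im g S ∈ P)
    {c : F} (hc : ∀ v, g (g v) = c • v) (hns : ¬ ∃ μ : F, ∀ v, g v = μ • v) {u : V}
    (hu : u ≠ 0) {x : F} (hx : g u = x • u) : False := by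
  have := Fintype.ofFinite F
  have hfd : FiniteDimensional F V := FiniteDimensional.of_finrank_pos (by rw [hV]; norm_num)
  obtain ⟨γ, hγ0, hγ1⟩ := exists_gamma hF
  have hx0 : x ≠ 0 := by
    rintro rfl
    rw [zero_smul] at hx
    exact hu ((LinearEquiv.map_eq_zero_iff g).1 hx)
  have hcx : c = x * x := by
    have h1 := hc u
    rw [hx, map_smul, hx, smul_smul] at h1
    exact (smul_left_injective F hu h1).symm
  rw [hcx] at hc
  clear hcx
  have h2x : x + x ≠ 0 := by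
    rw [← two_mul]
    exact mul_ne_zero h2 hx0
  -- eigenspaces
  obtain ⟨E, hE⟩ : ∃ E : F → Submodule F V, ∀ a v, v ∈ E a ↔ g v = a • v :=
    ⟨fun a => LinearMap.ker ((g : V →ₗ[F] V) - a • LinearMap.id), fun a v => by
      rw [LinearMap.mem_ker, LinearMap.sub_apply, sub_eq_zero]
      rfl⟩
  have hdisj : ∀ v, v ∈ E x → v ∈ E (-x) → v = 0 := by
    intro v h1 h3
    rw [hE] at h1 h3
    rw [h1] at h3
    have h4 : (x + x) • v = 0 := by
      have h5 : (x + x) • v = x • v - (-x) • v := by module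
      rw [h5, h3, sub_self]
    exact (smul_eq_zero.1 h4).resolve_left h2x
  have hcompl : IsCompl (E x) (E (-x)) := by
    refine IsCompl.of_eq ?_ ?_
    · rw [Submodule.eq_bot_iff]
      intro v hv
      exact hdisj v hv.1 hv.2
    · rw [eq_top_iff]
      intro v _
      have h1 : v = (x + x)⁻¹ • (g v + x • v) + (x + x)⁻¹ • (x • v - g v) := by
        rw [← smul_add]
        have h3 : g v + x • v + (x • v - g v) = (x + x) • v := by module
        rw [h3, smul_smul, inv_mul_cancel₀ h2x, one_smul]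
      rw [h1]
      refine Submodule.add_mem_sup (Submodule.smul_mem _ _ ?_) (Submodule.smul_mem _ _ ?_)
      · rw [hE, map_add, map_smul, hc]
        module
      · rw [hE, map_sub, map_smul, hc]
        module
  have hfr : finrank F (E x) + finrank F (E (-x)) = 4 := by
    rw [Submodule.finrank_add_eq_of_isCompl hcompl, hV]
  have huE : u ∈ E x := (hE x u).2 hx
  obtain ⟨u', hu'E, hu'⟩ : ∃ v, v ∈ E (-x) ∧ v ≠ 0 := by
    by_contra hcon
    push Not at hcon
    apply hns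
    refine ⟨x, fun v => ?_⟩
    have h1 : x • v - g v ∈ E (-x) := by
      rw [hE, map_sub, map_smul, hc]
      module
    exact (sub_eq_zero.1 (hcon _ h1)).symm
  -- the spread of an invariant line `span {u, v}`
  have hspr : ∀ u v : V, u ∈ E x → v ∈ E (-x) → u ≠ 0 → v ≠ 0 →
      ∃ (S : Set (Submodule F V)) (J : Module.End F V) (τ δ : F), S ∈ P ∧
        Submodule.span F {u, v} ∈ S ∧ IsSpread S ∧ Ker S J τ δ ∧
        ∀ w, g (J w) = τ • g w - J (g w) := by
    intro u v hu hv hu0 hv0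
    rw [hE] at hu hv
    have hi : LinearIndependent F ![u, v] := by
      refine indep_of hu0 fun a ha => ?_
      have h1 := hv
      rw [ha, map_smul, hu] at h1
      have h3 : (a * (x + x)) • u = 0 := by
        have h4 : (a * (x + x)) • u = a • x • u - (-x) • a • u := by module
        rw [h4, h1, sub_self]
      have h5 : a * (x + x) = 0 := (smul_eq_zero.1 h3).resolve_right hu0
      have h6 : a = 0 := (mul_eq_zero.1 h5).resolve_right h2x
      rw [h6, zero_smul] at ha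
      exact hv0 ha
    have hU := isLine_span hi
    have huU : u ∈ Submodule.span F {u, v} := Submodule.subset_span (by simp)
    have hvU : v ∈ Submodule.span F {u, v} := Submodule.subset_span (by simp)
    have hgU : ∀ w ∈ Submodule.span F {u, v}, g w ∈ Submodule.span F {u, v} := by
      intro w hw
      rw [Submodule.mem_span_pair] at hw
      obtain ⟨a, b, rfl⟩ := hw
      rw [map_add, map_smul, map_smul, hu, hv]
      exact Submodule.add_mem _ (Submodule.smul_mem _ _ (Submodule.smul_mem _ _ huU))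
        (Submodule.smul_mem _ _ (Submodule.smul_mem _ _ hvU))
    obtain ⟨S, J, τ, δ, hS, hUS, hgS, hSS, hJ⟩ := exists_fix hV hγ0 hγ1 hP hR hg hU hgU
    refine ⟨S, J, τ, δ, hS, hUS, hSS, hJ, ?_⟩
    rcases comm_or hV hSS hgS hJ with h1 | h1
    · exfalso
      refine no_eig2 hJ hu0 hv0 (x := x) (y := -x) ?_ hu hv hUS hU huU hvU h1
      intro h3
      exact h2x (by linear_combination h3)
    · exact h1
  have hswap : ∀ {S : Set (Submodule F V)} {J : Module.End F V} {τ δ : F}, Ker S J τ δ →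
      (∀ w, g (J w) = τ • g w - J (g w)) → ∀ (a : F) (v : V), v ∈ E a →
      (2 : F) • J v - τ • v ∈ E (-a) := by
    intro S J τ δ hJ hanti a v hv
    rw [hE] at hv ⊢
    rw [map_sub, map_smul, map_smul, hanti, hv, map_smul]
    module
  have hinjA : ∀ {S : Set (Submodule F V)} {J : Module.End F V} {τ δ : F}, Ker S J τ δ →
      ∀ v, (2 : F) • J v - τ • v = 0 → v = 0 := by
    intro S J τ δ hJ v hv
    by_contra hv0
    exact hJ.two_J hv0 (sub_eq_zero.1 hv)
  -- dimensions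
  have hdim : finrank F (E x) = 2 ∧ finrank F (E (-x)) = 2 := by
    obtain ⟨S, J, τ, δ, hS, hUS, hSS, hJ, hanti⟩ := hspr u u' huE hu'E hu hu'
    obtain ⟨A, hA⟩ : ∃ A : V →ₗ[F] V, ∀ v, A v = (2 : F) • J v - τ • v :=
      ⟨(2 : F) • J - τ • LinearMap.id, fun v => rfl⟩
    have hAinj : Function.Injective A := by
      rw [injective_iff_map_eq_zero]
      intro v hv
      rw [hA] at hv
      exact hinjA hJ v hv
    have key : ∀ a b : F, b = -a → finrank F (E a) ≤ finrank F (E b) := by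
      intro a b hab
      have h1 : (E a).map A ≤ E b := by
        rintro _ ⟨v, hv, rfl⟩
        rw [hA, hab]
        exact hswap hJ hanti a v hv
      rw [(Submodule.equivMapOfInjective A hAinj (E a)).finrank_eq]
      exact Submodule.finrank_mono h1
    have h1 := key x (-x) rfl
    have h3 := key (-x) x (by rw [neg_neg])
    omega
  obtain ⟨hd1, hd2⟩ := hdim
  obtain ⟨u₀, u₁, hu₀, hu₁, huspan, huind⟩ := basis2 hd1
  obtain ⟨v₀, v₁, hv₀, hv₁, hvspan, hvind⟩ := basis2 hd2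
  have hu₀0 : u₀ ≠ 0 := by
    rintro rfl
    have := (huind 1 0 (by simp)).1
    exact one_ne_zero this
  have hspan : ∀ v, ∃ c₁ c₂ c₃ c₄ : F, v = c₁ • u₀ + c₂ • u₁ + (c₃ • v₀ + c₄ • v₁) := by
    intro v
    have h1 : v ∈ E x ⊔ E (-x) := by
      rw [hcompl.sup_eq_top]
      exact Submodule.mem_top
    obtain ⟨a, ha, b, hb, rfl⟩ := Submodule.mem_sup.1 h1
    obtain ⟨c₁, c₂, rfl⟩ := huspan a ha
    obtain ⟨c₃, c₄, rfl⟩ := hvspan b hb
    exact ⟨c₁, c₂, c₃, c₄, rfl⟩
  -- the spreads `S c`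
  have hmain : ∀ c : F, ∃ (S : Set (Submodule F V)) (J A : Module.End F V) (τ δ D ρ a₁ a₃ a₄ : F),
      S ∈ P ∧ Submodule.span F {u₀, v₀ + c • v₁} ∈ S ∧ Ker S J τ δ ∧
      (∀ v, A v = (2 : F) • J v - τ • v) ∧ ρ ≠ 0 ∧ a₁ ≠ 0 ∧ D ≠ 0 ∧
      Co u₀ u₁ v₀ v₁ A D ρ a₁ (c * a₁) a₃ a₄ := by
    intro c
    have hwE : v₀ + c • v₁ ∈ E (-x) := Submodule.add_mem _ hv₀ (Submodule.smul_mem _ _ hv₁)
    have hw0 : v₀ + c • v₁ ≠ 0 := by
      intro h
      have := (hvind 1 c (by rw [one_smul]; exact h)).1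
      exact one_ne_zero this
    obtain ⟨S, J, τ, δ, hS, hUS, hSS, hJ, hanti⟩ := hspr u₀ _ hu₀ hwE hu₀0 hw0
    obtain ⟨A, hA⟩ : ∃ A : V →ₗ[F] V, ∀ v, A v = (2 : F) • J v - τ • v :=
      ⟨(2 : F) • J - τ • LinearMap.id, fun v => rfl⟩
    have hA0 : ∀ v, A v = 0 → v = 0 := by
      intro v hv
      rw [hA] at hv
      exact hinjA hJ v hv
    have hsq : ∀ v, A (A v) = (τ * τ - 4 * δ) • v := by
      intro v
      rw [hA, hA, map_sub, map_smul, map_smul, hJ.quad]
      module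
    have hD : τ * τ - 4 * δ ≠ 0 := by
      intro h
      have h1 := hsq u₀
      rw [h, zero_smul] at h1
      exact hu₀0 (hA0 _ (hA0 _ h1))
    have hAswap : ∀ a b : F, b = -a → ∀ v ∈ E a, A v ∈ E b := by
      intro a b hab v hv
      rw [hA, hab]
      exact hswap hJ hanti a v hv
    obtain ⟨a₁, a₂, e1⟩ := hvspan _ (hAswap x (-x) rfl u₀ hu₀)
    obtain ⟨a₃, a₄, e2⟩ := hvspan _ (hAswap x (-x) rfl u₁ hu₁)
    -- `A u₀` is a multiple of `v₀ + c v₁`
    have hline := hSS.line _ hUS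
    have huU : u₀ ∈ Submodule.span F {u₀, v₀ + c • v₁} := Submodule.subset_span (by simp)
    have h1 : A u₀ ∈ Submodule.span F {u₀, v₀ + c • v₁} := by
      rw [hA]
      exact Submodule.sub_mem _ (Submodule.smul_mem _ _ ((hJ.mem _ hline).1 hUS u₀ huU))
        (Submodule.smul_mem _ _ huU)
    rw [Submodule.mem_span_pair] at h1
    obtain ⟨α, β, hαβ⟩ := h1
    have h3 : α • u₀ = 0 := by
      refine hdisj _ (Submodule.smul_mem _ _ hu₀) ?_
      have h4 : α • u₀ = A u₀ - β • (v₀ + c • v₁) := by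
        rw [← hαβ]
        abel
      rw [h4]
      exact Submodule.sub_mem _ (hAswap x (-x) rfl u₀ hu₀) (Submodule.smul_mem _ _ hwE)
    rw [h3, zero_add] at hαβ
    have h5 : (a₁ - β) • v₀ + (a₂ - c * β) • v₁ = 0 := by
      have h6 : (a₁ - β) • v₀ + (a₂ - c * β) • v₁ = (a₁ • v₀ + a₂ • v₁) - β • (v₀ + c • v₁) := by
        module
      rw [h6, ← e1, hαβ, sub_self]
    obtain ⟨h6, h7⟩ := hvind _ _ h5
    have ha₂ : a₂ = c * a₁ := by linear_combination h7 - c * h6
    subst ha₂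
    have ha₁ : a₁ ≠ 0 := by
      rintro rfl
      rw [mul_zero, zero_smul, zero_smul, add_zero] at e1
      exact hu₀0 (hA0 _ e1)
    -- the determinant
    obtain ⟨Δ, hΔ⟩ : ∃ Δ : F, Δ = a₁ * a₄ - (c * a₁) * a₃ := ⟨_, rfl⟩
    have f1 : A (a₄ • u₀ - (c * a₁) • u₁) = Δ • v₀ := by
      rw [map_sub, map_smul, map_smul, e1, e2, hΔ]
      module
    have f2 : A (a₁ • u₁ - a₃ • u₀) = Δ • v₁ := by
      rw [map_sub, map_smul, map_smul, e1, e2, hΔ]
      module
    have hΔ0 : Δ ≠ 0 := by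
      intro h
      rw [h, zero_smul] at f2
      have h8 := hA0 _ f2
      have h9 : (-a₃) • u₀ + a₁ • u₁ = 0 := by
        rw [← h8]
        module
      exact ha₁ (huind _ _ h9).2
    have f3 : Δ • A v₀ = (τ * τ - 4 * δ) • (a₄ • u₀ - (c * a₁) • u₁) := by
      rw [← map_smul, ← f1, hsq]
    have f4 : Δ • A v₁ = (τ * τ - 4 * δ) • (a₁ • u₁ - a₃ • u₀) := by
      rw [← map_smul, ← f2, hsq]
    refine ⟨S, J, A, τ, δ, τ * τ - 4 * δ, Δ⁻¹ * (τ * τ - 4 * δ), a₁, a₃, a₄, hS, hUS, hJ, hA,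
      mul_ne_zero (inv_ne_zero hΔ0) hD, ha₁, hD, hsq, e1, e2, ?_, ?_⟩
    · rw [mul_smul, ← f3, smul_smul, inv_mul_cancel₀ hΔ0, one_smul]
    · rw [mul_smul, ← f4, smul_smul, inv_mul_cancel₀ hΔ0, one_smul]
  choose S J A τ δ D ρ a₁ a₃ a₄ hS hUS hJ hA hρ ha₁ hD hCo using hmain
  -- pigeonhole
  have hpig : ∃ c d : F, c ≠ d ∧ ρ c = ρ d := by
    by_contra hcon
    push Not at hcon
    have hinj : Function.Injective ρ := by
      intro c d h
      by_contra hne
      exact hcon c d hne h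
    obtain ⟨c, hc⟩ := Finite.injective_iff_surjective.1 hinj 0
    exact hρ c hc
  obtain ⟨c, d, hcd, hρcd⟩ := hpig
  have hCoc := hCo c
  rw [hρcd] at hCoc
  obtain ⟨t, ht⟩ := hCoc.anticomm (hCo d) hspan
  have hodd : Fintype.card F % 2 = 1 := by
    apply FiniteField.odd_card_of_char_ne_two
    intro h
    apply h2
    have h3 := (ringChar.spec F 2).2 (by rw [h])
    exact_mod_cast h3
  obtain ⟨y, z, hyz⟩ := FiniteField.exists_root_sum_quadratic
    (f := Polynomial.C (D c) * Polynomial.X ^ 2 + Polynomial.C t * Polynomial.X +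
      Polynomial.C (D d)) (g := Polynomial.C (-1) * Polynomial.X ^ 2 + Polynomial.C 0 *
      Polynomial.X + Polynomial.C 0) (Polynomial.degree_quadratic (hD c))
    (Polynomial.degree_quadratic (neg_ne_zero.2 one_ne_zero)) hodd
  simp only [Polynomial.eval_add, Polynomial.eval_mul, Polynomial.eval_C, Polynomial.eval_pow,
    Polynomial.eval_X] at hyz
  have hyz' : D c * y ^ 2 + t * y + D d = z ^ 2 := by linear_combination hyz
  have hCsq : ∀ v, y • A c (y • A c v + A d v) + A d (y • A c v + A d v) = (z ^ 2) • v := by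
    intro v
    have h3 : y • A c (y • A c v + A d v) + A d (y • A c v + A d v) =
        (y ^ 2) • A c (A c v) + y • (A c (A d v) + A d (A c v)) + A d (A d v) := by
      rw [map_add, map_add, map_smul, map_smul]
      module
    rw [h3, (hCo c).sq, (hCo d).sq, ht, ← hyz']
    module
  obtain ⟨w, hw⟩ : ∃ w : V, w = (y • A c u₀ + A d u₀) + z • u₀ := ⟨_, rfl⟩
  have hCw : y • A c w + A d w = z • w := by
    obtain ⟨m, hm⟩ : ∃ m : V, m = y • A c u₀ + A d u₀ := ⟨_, rfl⟩
    have h4 := hCsq u₀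
    rw [← hm] at h4 hw
    rw [hw, map_add, map_add, map_smul, map_smul]
    have h3 : y • (A c m + z • A c u₀) + (A d m + z • A d u₀) = (y • A c m + A d m) +
        z • (y • A c u₀ + A d u₀) := by module
    rw [h3, h4, ← hm]
    module
  have hw0 : w ≠ 0 := by
    intro h
    rw [h] at hw
    have h3 : z • u₀ = 0 := by
      refine hdisj _ (Submodule.smul_mem _ _ hu₀) ?_
      have h4 : z • u₀ = -(y • A c u₀ + A d u₀) := by
        have h5 := hw.symm
        rw [add_comm] at h5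
        exact eq_neg_of_add_eq_zero_left h5
      rw [h4, (hCo c).e1, (hCo d).e1]
      exact Submodule.neg_mem _ (Submodule.add_mem _ (Submodule.smul_mem _ _
        (Submodule.add_mem _ (Submodule.smul_mem _ _ hv₀) (Submodule.smul_mem _ _ hv₁)))
        (Submodule.add_mem _ (Submodule.smul_mem _ _ hv₀) (Submodule.smul_mem _ _ hv₁)))
    rw [h3, add_zero, (hCo c).e1, (hCo d).e1] at hw
    have h4 : (y * a₁ c + a₁ d) • v₀ + (y * (c * a₁ c) + d * a₁ d) • v₁ = 0 := by
      rw [hw]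
      module
    obtain ⟨h5, h6⟩ := hvind _ _ h4
    have h7 : a₁ d * (d - c) = 0 := by linear_combination h6 - c * h5
    rcases mul_eq_zero.1 h7 with h8 | h8
    · exact ha₁ d h8
    · exact hcd (sub_eq_zero.1 h8).symm
  obtain ⟨U, hUl, hU1, hU2⟩ := common_of_anti h2 (hJ c) (hJ d) (hA c) (hA d) (hCo c).sq ht hw0 hCw
  have hSS : S c = S d := (hP.cover U hUl).unique ⟨hS c, hU1⟩ ⟨hS d, hU2⟩
  have h3 : Submodule.span F {u₀, v₀ + c • v₁} = Submodule.span F {u₀, v₀ + d • v₁} := by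
    have h4 := hUS d
    rw [← hSS] at h4
    exact ((hP.spread _ (hS c)).cover u₀ hu₀0).unique ⟨hUS c, Submodule.subset_span (by simp)⟩
      ⟨h4, Submodule.subset_span (by simp)⟩
  have h5 : v₀ + d • v₁ ∈ Submodule.span F {u₀, v₀ + c • v₁} := by
    rw [h3]
    exact Submodule.subset_span (by simp)
  rw [Submodule.mem_span_pair] at h5
  obtain ⟨α, β, hαβ⟩ := h5
  have h6 : α • u₀ = 0 := by
    refine hdisj _ (Submodule.smul_mem _ _ hu₀) ?_
    have h7 : α • u₀ = (v₀ + d • v₁) - β • (v₀ + c • v₁) := by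
      rw [← hαβ]
      abel
    rw [h7]
    exact Submodule.sub_mem _ (Submodule.add_mem _ hv₀ (Submodule.smul_mem _ _ hv₁))
      (Submodule.smul_mem _ _ (Submodule.add_mem _ hv₀ (Submodule.smul_mem _ _ hv₁)))
  rw [h6, zero_add] at hαβ
  have h7 : (β - 1) • v₀ + (β * c - d) • v₁ = 0 := by
    have h8 : (β - 1) • v₀ + (β * c - d) • v₁ = β • (v₀ + c • v₁) - (v₀ + d • v₁) := by module
    rw [h8, hαβ, sub_self]
  obtain ⟨h8, h9⟩ := hvind _ _ h7
  apply hcd
  linear_combination h9 - c * h8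

end Pool.Agent.RegPack
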