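import Pool.Agent.Lib_MP_cd200f_co.OddP

/-!
# No perspectivities
-/

namespace Pool.Agent.RegPack

open Module

variable {F V : Type*} [Field F] [AddCommGroup V] [Module F V]
variable {P : Set (Set (Submodule F V))} {g : V ≃ₗ[F] V}

theorem Ker.two_J [Finite F] {S : Set (Submodule F V)} {J : Module.End F V} {τ δ : F}
    (h : Ker S J τ δ) {v : V} (hv : v ≠ 0) : (2 : F) • J v ≠ τ • v := by
  have := Fintype.ofFinite F
  have hnt : Nontrivial V := ⟨v, 0, hv⟩
  intro h1
  by_cases h2 : (2 : F) = 0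
  · rw [h2, zero_smul] at h1
    have h3 : τ = 0 := (smul_eq_zero.1 h1.symm).resolve_right hv
    have h4 : ringChar F = 2 := by
      have h5 : ringChar F ∣ 2 := (ringChar.spec F 2).1 (by exact_mod_cast h2)
      rcases (Nat.dvd_prime Nat.prime_two).1 h5 with h6 | h6
      · exfalso
        have h7 : ((1 : ℕ) : F) = 0 := (ringChar.spec F 1).2 (by rw [h6])
        rw [Nat.cast_one] at h7
        exact one_ne_zero h7
      · exact h6
    obtain ⟨c, hc⟩ := FiniteField.isSquare_of_char_two h4 δ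
    refine h.no_root c ?_
    rw [h3, hc]
    linear_combination (c * c) * h2
  · refine h.ne v hv (2⁻¹ * τ) ?_
    rw [mul_smul, ← h1, smul_smul, inv_mul_cancel₀ h2, one_smul]

/-- a collineation which preserves a regular packing is not a perspectivity -/
theorem no_persp [Finite F] (hF : 2 < Nat.card F) (hV : finrank F V = 4) (hP : IsPacking P)
    (hR : ∀ S ∈ P, IsRegular S) (hg : ∀ S ∈ P, im g S ∈ P) (μ : F) :
    finrank F (LinearMap.ker ((g : V →ₗ[F] V) - μ • LinearMap.id)) ≠ 3 := by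
  intro hk
  have hfd : FiniteDimensional F V := FiniteDimensional.of_finrank_pos (by rw [hV]; norm_num)
  obtain ⟨γ, hγ0, hγ1⟩ := exists_gamma hF
  obtain ⟨N, hN⟩ : ∃ N : V →ₗ[F] V, N = (g : V →ₗ[F] V) - μ • LinearMap.id := ⟨_, rfl⟩
  have hNv : ∀ v, N v = g v - μ • v := fun v => by rw [hN]; rfl
  rw [← hN] at hk
  have hrk : finrank F (LinearMap.range N) = 1 := by
    have h1 := LinearMap.finrank_range_add_finrank_ker N
    rw [hk, hV] at h1
    omega
  obtain ⟨⟨n₀, hn₀⟩, hn₀0, hspan⟩ := finrank_eq_one_iff'.1 hrk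
  have hn0 : n₀ ≠ 0 := fun h => hn₀0 (Subtype.ext h)
  have hNn : ∀ v, ∃ a : F, N v = a • n₀ := by
    intro v
    obtain ⟨a, ha⟩ := hspan ⟨N v, LinearMap.mem_range_self N v⟩
    exact ⟨a, (congrArg Subtype.val ha).symm⟩
  obtain ⟨z, hz⟩ := hn₀
  -- an invariant line through the centre
  obtain ⟨w, hw⟩ : ∃ w : V, w ∉ Submodule.span F {n₀} := by
    by_contra hcon
    push Not at hcon
    have h1 : Submodule.span F {n₀} = ⊤ := eq_top_iff.2 fun v _ => hcon v
    have h2 := finrank_span_singleton (K := F) hn0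
    rw [h1, finrank_top, hV] at h2
    omega
  have hi : LinearIndependent F ![n₀, w] := by
    refine indep_of hn0 fun c hc => hw ?_
    rw [hc]
    exact Submodule.smul_mem _ _ (Submodule.mem_span_singleton_self _)
  have hU := isLine_span hi
  have hnU : n₀ ∈ Submodule.span F {n₀, w} := Submodule.subset_span (by simp)
  have hgU : ∀ u ∈ Submodule.span F {n₀, w}, g u ∈ Submodule.span F {n₀, w} := by
    intro u hu
    obtain ⟨a, ha⟩ := hNn u
    have h1 : g u = a • n₀ + μ • u := by
      rw [← ha, hNv]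
      abel
    rw [h1]
    exact Submodule.add_mem _ (Submodule.smul_mem _ _ hnU) (Submodule.smul_mem _ _ hu)
  obtain ⟨S, J, τ, δ, hS, hUS, hgS, hSS, hJ⟩ := exists_fix hV hγ0 hγ1 hP hR hg hU hgU
  rcases comm_or hV hSS hgS hJ with h1 | h1
  · have h2 : N (J z) = J n₀ := by
      rw [← hz, hNv, hNv, map_sub, map_smul, h1]
    obtain ⟨a, ha⟩ := hNn (J z)
    exact hJ.ne n₀ hn0 a (by rw [← h2, ha])
  · have h3 : 3 ≤ finrank F (LinearMap.ker (N ∘ₗ J)) := by
      have h4 := LinearMap.finrank_range_add_finrank_ker (N ∘ₗ J)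
      have h5 : finrank F (LinearMap.range (N ∘ₗ J)) ≤ 1 := by
        rw [← hrk]
        exact Submodule.finrank_mono (LinearMap.range_comp_le_range J N)
      rw [hV] at h4
      omega
    have h6 := Submodule.finrank_sup_add_finrank_inf_eq (LinearMap.ker N) (LinearMap.ker (N ∘ₗ J))
    have h7 : finrank F (LinearMap.ker N ⊔ LinearMap.ker (N ∘ₗ J) : Submodule F V) ≤ 4 := by
      rw [← hV]
      exact Submodule.finrank_le _
    have h8 : (LinearMap.ker N ⊓ LinearMap.ker (N ∘ₗ J) : Submodule F V) ≠ ⊥ := by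
      intro h9
      rw [h9, finrank_bot] at h6
      omega
    obtain ⟨v, hv, hv0⟩ := Submodule.exists_mem_ne_zero_of_ne_bot h8
    rw [Submodule.mem_inf, LinearMap.mem_ker, LinearMap.mem_ker] at hv
    obtain ⟨hv1, hv2⟩ := hv
    have hv2' : N (J v) = 0 := hv2
    rw [hNv, sub_eq_zero] at hv1 hv2'
    have hμ : μ ≠ 0 := by
      rintro rfl
      rw [zero_smul] at hv1
      exact hv0 ((LinearEquiv.map_eq_zero_iff g).1 hv1)
    have h9 := h1 v
    rw [hv2', hv1, map_smul] at h9
    refine hJ.two_J hv0 (smul_right_injective V hμ ?_)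
    have h10 : μ • (2 : F) • J v = μ • J v + μ • J v := by module
    show μ • (2 : F) • J v = μ • τ • v
    rw [h10]
    nth_rw 1 [h9]
    module

end Pool.Agent.RegPack
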