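import Pool.Agent.Lib_MP_cd200f_co.Fix

/-!
# Collineations of odd prime order `r` with `r` the characteristic or `r ∣ q - 1`
-/

namespace Pool.Agent.RegPack

open Module Polynomial

variable {F V : Type*} [Field F] [AddCommGroup V] [Module F V]

/-- a nilpotent map without Jordan blocks is zero -/
theorem nil_zero {N : Module.End F V} (hN : ∀ v, N (N v) = 0 → N v = 0) (n : ℕ)
    (h : ∀ v, (N ^ n) v = 0) : ∀ v, N v = 0 := by
  induction n with
  | zero =>
    intro v
    have h1 := h (N v)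
    rw [pow_zero] at h1
    exact h1
  | succ n ih =>
    rcases n with _ | n
    · intro v
      have h1 := h v
      rw [zero_add, pow_one] at h1
      exact h1
    · refine ih fun v => ?_
      have h1 := h v
      rw [pow_succ', pow_succ'] at h1
      rw [pow_succ']
      exact hN _ h1

theorem aeval_prod_inj {G : Module.End F V} (s : Finset F)
    (h : ∀ a ∈ s, ∀ v, G v = a • v → v = 0) (v : V)
    (hv : aeval G (∏ a ∈ s, (X - C a)) v = 0) : v = 0 := by
  classical
  induction s using Finset.induction_on with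
  | empty =>
    rw [Finset.prod_empty, map_one] at hv
    exact hv
  | insert a s ha ih =>
    refine ih (fun b hb => h b (Finset.mem_insert_of_mem hb)) ?_
    rw [Finset.prod_insert ha, map_mul] at hv
    refine h a (Finset.mem_insert_self a s) _ ?_
    have h1 : aeval G (X - C a) ((aeval G (∏ x ∈ s, (X - C x))) v) = 0 := hv
    rw [map_sub, aeval_X, aeval_C, LinearMap.sub_apply, Module.algebraMap_end_apply] at h1
    exact sub_eq_zero.1 h1

theorem prod_X_sub [Fintype F] : (∏ a : F, (X - C a) : F[X]) = X ^ Fintype.card F - X := by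
  have h1 : (X ^ Fintype.card F - X : F[X]).Monic := by
    refine monic_X_pow_sub ?_
    rw [degree_X]
    exact_mod_cast Fintype.one_lt_card
  have h2 := FiniteField.roots_X_pow_card_sub_X F
  have h3 : Multiset.card (X ^ Fintype.card F - X : F[X]).roots =
      (X ^ Fintype.card F - X : F[X]).natDegree := by
    rw [h2, FiniteField.X_pow_card_sub_X_natDegree_eq F Fintype.one_lt_card]
    rfl
  have h4 := prod_multiset_X_sub_C_of_monic_of_roots_card_eq h1 h3
  rw [h2] at h4
  exact h4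

/-- if `G ^ q = G` and all eigenvalues are equal to `x`, then `G = x` -/
theorem scalar_of_card [Fintype F] {G : Module.End F V} (hG : G ^ Fintype.card F = G) (x : F)
    (h : ∀ a, a ≠ x → ∀ v, G v = a • v → v = 0) (v : V) : G v = x • v := by
  classical
  have h1 : aeval G (∏ a : F, (X - C a)) v = 0 := by
    rw [prod_X_sub, map_sub, map_pow, aeval_X, hG, sub_self]
    rfl
  rw [← Finset.prod_erase_mul Finset.univ _ (Finset.mem_univ x), map_mul] at h1
  have h2 := aeval_prod_inj (G := G) (Finset.univ.erase x)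
    (fun a ha => h a (Finset.ne_of_mem_erase ha)) (aeval G (X - C x) v) h1
  rw [map_sub, aeval_X, aeval_C, LinearMap.sub_apply, Module.algebraMap_end_apply] at h2
  exact sub_eq_zero.1 h2

/-- extraction of roots -/
theorem exists_root_odd {c d : F} {r : ℕ} (hc : c ≠ 0) (hd : d ≠ 0) (h : c ^ 4 = d ^ r)
    (hr : Odd r) : ∃ μ : F, μ ≠ 0 ∧ c = μ ^ r := by
  have h1 : IsCoprime ((4 : ℕ) : ℤ) (r : ℤ) := by
    refine Nat.isCoprime_iff_coprime.2 ?_
    have h2 : Nat.Coprime 2 r := Nat.coprime_two_left.2 hr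
    have h3 : Nat.Coprime (2 ^ 2) r := Nat.Coprime.pow_left 2 h2
    exact h3
  obtain ⟨a, b, hab⟩ := h1
  refine ⟨d ^ a * c ^ b, mul_ne_zero (zpow_ne_zero _ hd) (zpow_ne_zero _ hc), ?_⟩
  have h4 : (d ^ a * c ^ b) ^ r = (d ^ r) ^ a * (c ^ b) ^ r := by
    rw [mul_pow, ← zpow_natCast (d ^ a) r, ← zpow_mul, mul_comm a (r : ℤ), zpow_mul, zpow_natCast]
  rw [h4, ← h, ← zpow_natCast c 4, ← zpow_mul, ← zpow_natCast (c ^ b) r, ← zpow_mul,
    ← zpow_add₀ hc]
  have h5 : ((4 : ℕ) : ℤ) * a + b * (r : ℤ) = 1 := by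
    rw [mul_comm]
    exact hab
  rw [h5, zpow_one]

variable {P : Set (Set (Submodule F V))} {g : V ≃ₗ[F] V}

theorem pow_end (g : V ≃ₗ[F] V) (n : ℕ) (v : V) : ((g : V →ₗ[F] V) ^ n) v = (g ^ n) v := by
  induction n generalizing v with
  | zero => rfl
  | succ n ih =>
    rw [pow_succ, pow_succ]
    show ((g : V →ₗ[F] V) ^ n) (g v) = (g ^ n) (g v)
    exact ih (g v)

/-- a scalar power of an odd exponent is the power of a scalar -/
theorem exists_mu (hV : finrank F V = 4) {r : ℕ} (hr : Odd r) {c : F}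
    (hc : ∀ v, (g ^ r) v = c • v) : ∃ μ : F, μ ≠ 0 ∧ c = μ ^ r := by
  have hnt : Nontrivial V := Module.nontrivial_of_finrank_pos (R := F) (by rw [hV]; norm_num)
  have hfd : FiniteDimensional F V := FiniteDimensional.of_finrank_pos (by rw [hV]; norm_num)
  have hc0 : c ≠ 0 := by
    rintro rfl
    obtain ⟨u, hu⟩ := exists_ne (0 : V)
    have h5 := hc u
    rw [zero_smul] at h5
    exact hu ((LinearEquiv.map_eq_zero_iff _).1 h5)
  refine exists_root_odd (d := LinearMap.det (g : V →ₗ[F] V)) hc0 ?_ ?_ hr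
  · exact (LinearEquiv.isUnit_det' g).ne_zero
  · rw [← map_pow]
    have h1 : (g : V →ₗ[F] V) ^ r = c • LinearMap.id := by
      ext v
      rw [pow_end, hc]
      rfl
    rw [h1, LinearMap.det_smul, LinearMap.det_id, mul_one, hV]

/-- no nonscalar collineation of odd order equal to the characteristic -/
theorem scalar_char (hV : finrank F V = 4) {γ : F} (hγ0 : γ ≠ 0) (hγ1 : γ ≠ 1) (hP : IsPacking P)
    (hR : ∀ S ∈ P, IsRegular S) (hg : ∀ S ∈ P, im g S ∈ P) {r : ℕ} [CharP F r] (hr : r.Prime)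
    (hodd : Odd r) {c : F} (hc : ∀ v, (g ^ r) v = c • v) : ∃ μ : F, ∀ v, g v = μ • v := by
  obtain ⟨μ, hμ0, rfl⟩ := exists_mu hV hodd hc
  refine ⟨μ, ?_⟩
  obtain ⟨k, hk⟩ := hodd
  obtain ⟨N, hN⟩ : ∃ N : Module.End F V, N = (g : V →ₗ[F] V) - algebraMap F _ μ := ⟨_, rfl⟩
  have hNv : ∀ v, N v = g v - μ • v := fun v => by
    rw [hN, LinearMap.sub_apply, Module.algebraMap_end_apply]
    rfl
  have h1 : ∀ v, N v = 0 := by
    refine nil_zero (N := N) ?_ r ?_
    · intro v hv
      refine no_block hV hγ0 hγ1 hP hR hg (k := k) (c := μ ^ r) ?_ (μ := μ) (v := v) ?_ ?_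
      · rw [← hk]
        exact hc
      · rw [hNv]
        abel
      · rw [hNv (N v), sub_eq_zero] at hv
        exact hv
    · intro v
      have hfact : Fact r.Prime := ⟨hr⟩
      have h2 : N = aeval (g : V →ₗ[F] V) (X - C μ : F[X]) := by
        rw [hN, map_sub, aeval_X, aeval_C]
      rw [h2, ← map_pow, sub_pow_char, map_sub, map_pow, map_pow, aeval_X, aeval_C, ← map_pow,
        LinearMap.sub_apply, Module.algebraMap_end_apply, pow_end, hc, sub_self]
  intro v
  have h2 := h1 v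
  rw [hNv, sub_eq_zero] at h2
  exact h2

/-- no nonscalar collineation of odd order dividing `q - 1` -/
theorem scalar_split [Fintype F] (hV : finrank F V = 4) {γ : F} (hγ0 : γ ≠ 0) (hγ1 : γ ≠ 1)
    (hP : IsPacking P) (hR : ∀ S ∈ P, IsRegular S) (hg : ∀ S ∈ P, im g S ∈ P) {r : ℕ}
    (hodd : Odd r) (hdvd : r ∣ Fintype.card F - 1) {c : F} (hc : ∀ v, (g ^ r) v = c • v) :
    ∃ μ : F, ∀ v, g v = μ • v := by
  obtain ⟨μ, hμ0, rfl⟩ := exists_mu hV hodd hc
  obtain ⟨k, hk⟩ := hodd
  obtain ⟨G, hG⟩ : ∃ G : Module.End F V, G = μ⁻¹ • (g : V →ₗ[F] V) := ⟨_, rfl⟩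
  have hGv : ∀ v, G v = μ⁻¹ • g v := fun v => by
    rw [hG, LinearMap.smul_apply]
    rfl
  have h1 : G ^ r = 1 := by
    ext v
    rw [hG, _root_.smul_pow, LinearMap.smul_apply, pow_end, hc, smul_smul, inv_pow,
      inv_mul_cancel₀ (pow_ne_zero _ hμ0), one_smul]
    rfl
  obtain ⟨m, hm⟩ := hdvd
  have hcard : Fintype.card F = r * m + 1 := by
    have := Fintype.card_pos (α := F)
    omega
  have h2 : G ^ Fintype.card F = G := by
    rw [hcard, pow_succ, pow_mul, h1, one_pow, one_mul]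
  have h3 : ∃ x : F, ∀ a, a ≠ x → ∀ v, G v = a • v → v = 0 := by
    by_cases h4 : ∃ (x : F) (u : V), u ≠ 0 ∧ G u = x • u
    · obtain ⟨x, u, hu, hux⟩ := h4
      refine ⟨x, fun a ha v hv => ?_⟩
      by_contra hv0
      have key : ∀ (b : F) (w : V), G w = b • w → g w = (μ * b) • w := by
        intro b w hw
        rw [hGv] at hw
        rw [mul_smul, ← hw, smul_smul, mul_inv_cancel₀ hμ0, one_smul]
      have h5 := eig_unique hV hγ0 hγ1 hP hR hg (k := k) (c := μ ^ r) (by rw [← hk]; exact hc)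
        hu hv0 (key x u hux) (key a v hv)
      exact ha (mul_left_cancel₀ hμ0 h5).symm
    · push Not at h4
      refine ⟨0, fun a _ v hv => ?_⟩
      by_contra hv0
      exact h4 a v hv0 hv
  obtain ⟨x, hx⟩ := h3
  refine ⟨μ * x, fun v => ?_⟩
  have h4 := scalar_of_card h2 x hx v
  rw [hGv] at h4
  rw [mul_smul, ← h4, smul_smul, mul_inv_cancel₀ hμ0, one_smul]

end Pool.Agent.RegPack
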