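import Pool.Agent.Lib_MP_cd200f_co.Sc

/-!
# The trace over the kernel
-/

namespace Pool.Agent.RegPack

open Module Polynomial

/-- a linear map of determinant one of a plane over a finite field: `G + G⁻¹` is a scalar -/
theorem two_dim_trace {K W : Type*} [Field K] [Fintype K] [AddCommGroup W] [Module K W]
    (hW : finrank K W = 2) (G : W ≃ₗ[K] W) {r : ℕ} (hr : ∀ v, (G ^ r) v = v)
    (hcop : Nat.Coprime r (Fintype.card K - 1)) : ∃ t : K, ∀ v, G v + G.symm v = t • v := by
  have hfd : FiniteDimensional K W := FiniteDimensional.of_finrank_pos (by rw [hW]; norm_num)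
  obtain ⟨M, hM⟩ : ∃ M : Module.End K W, M = (G : W →ₗ[K] W) := ⟨_, rfl⟩
  have hMv : ∀ v, M v = G v := fun v => by rw [hM]; rfl
  have h1 : LinearMap.det M = 1 := by
    have h2 : (LinearMap.det M) ^ r = 1 := by
      rw [← map_pow]
      have h3 : M ^ r = 1 := by
        ext v
        rw [hM, pow_end, hr]
        rfl
      rw [h3, map_one]
    have h3 : LinearMap.det M ≠ 0 := by
      rw [hM]
      exact (LinearEquiv.isUnit_det' G).ne_zero
    have h4 := FiniteField.pow_card_sub_one_eq_one _ h3
    have h5 : orderOf (LinearMap.det M) ∣ Nat.gcd r (Fintype.card K - 1) :=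
      Nat.dvd_gcd (orderOf_dvd_of_pow_eq_one h2) (orderOf_dvd_of_pow_eq_one h4)
    rw [hcop, Nat.dvd_one, orderOf_eq_one_iff] at h5
    exact h5
  have hc0 : M.charpoly.coeff 0 = 1 := by
    have h2 := LinearMap.det_eq_sign_charpoly_coeff M
    rw [h1, hW] at h2
    rw [h2]
    ring
  have hdeg : M.charpoly.natDegree = 2 := by
    rw [LinearMap.charpoly_natDegree, hW]
  have hc2 : M.charpoly.coeff 2 = 1 := by
    have h2 := (LinearMap.charpoly_monic M).coeff_natDegree
    rw [hdeg] at h2
    exact h2
  have hae := LinearMap.aeval_self_charpoly M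
  rw [aeval_eq_sum_range, hdeg, Finset.sum_range_succ, Finset.sum_range_succ,
    Finset.sum_range_succ, Finset.sum_range_zero, hc0, hc2, zero_add, pow_zero, pow_one,
    one_smul, one_smul] at hae
  refine ⟨-(M.charpoly.coeff 1), fun v => ?_⟩
  have h2 := LinearMap.congr_fun hae (G.symm v)
  have h3 : G.symm v + M.charpoly.coeff 1 • v + G v = 0 := by
    have h4 : ((1 : Module.End K W) + M.charpoly.coeff 1 • M + M ^ 2) (G.symm v) =
        G.symm v + M.charpoly.coeff 1 • v + G v := by
      rw [LinearMap.add_apply, LinearMap.add_apply, LinearMap.smul_apply, pow_two]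
      show G.symm v + M.charpoly.coeff 1 • M (G.symm v) + M (M (G.symm v)) = _
      rw [hMv, hMv, G.apply_symm_apply]
    rw [← h4, h2]
    rfl
  rw [neg_smul, eq_neg_iff_add_eq_zero, ← h3]
  abel

variable {F V : Type*} [Field F] [AddCommGroup V] [Module F V]
variable {S : Set (Submodule F V)} {J : Module.End F V} {τ δ : F}

theorem trace_ker [Fintype F] (hV : finrank F V = 4) (h : Ker S J τ δ) (G : V ≃ₗ[F] V)
    (hGJ : ∀ v, G (J v) = J (G v)) {r : ℕ} (hr : ∀ v, (G ^ r) v = v)
    (hcop : Nat.Coprime r (Fintype.card F ^ 2 - 1)) :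
    ∃ x y : F, ∀ v, G v + G.symm v = x • v + y • J v := by
  have hnt : Nontrivial V := Module.nontrivial_of_finrank_pos (R := F) (by rw [hV]; norm_num)
  have hfact : Fact (∀ c : F, c ^ 2 ≠ -δ + τ * c) := ⟨fun c hc => h.no_root c (by
    linear_combination hc)⟩
  let φ : QuadraticAlgebra F (-δ) τ →ₐ[F] Module.End F V := QuadraticAlgebra.lift ⟨J, by
    ext v
    show J (J v) = ((-δ) • (1 : Module.End F V) + τ • J) v
    rw [h.quad, LinearMap.add_apply, LinearMap.smul_apply, LinearMap.smul_apply]
    show τ • J v - δ • v = (-δ) • v + τ • J v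
    module⟩
  have hφ : ∀ (z : QuadraticAlgebra F (-δ) τ) (v : V), φ z v = z.re • v + z.im • J v :=
    fun z v => rfl
  let _ : Module (QuadraticAlgebra F (-δ) τ) V := Module.compHom V φ.toRingHom
  have hsm : ∀ (z : QuadraticAlgebra F (-δ) τ) (v : V), z • v = z.re • v + z.im • J v :=
    fun z v => rfl
  have htow : IsScalarTower F (QuadraticAlgebra F (-δ) τ) V := ⟨fun a z v => by
    rw [hsm, hsm, QuadraticAlgebra.re_smul, QuadraticAlgebra.im_smul]
    show (a * z.re) • v + (a * z.im) • J v = a • (z.re • v + z.im • J v)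
    module⟩
  have hfr : finrank (QuadraticAlgebra F (-δ) τ) V = 2 := by
    have h1 := Module.finrank_mul_finrank F (QuadraticAlgebra F (-δ) τ) V
    rw [QuadraticAlgebra.finrank_eq_two, hV] at h1
    omega
  have hfin : Fintype (QuadraticAlgebra F (-δ) τ) :=
    Fintype.ofEquiv (F × F) (QuadraticAlgebra.equivProd (-δ) τ).symm
  have hcard : Fintype.card (QuadraticAlgebra F (-δ) τ) = Fintype.card F ^ 2 := by
    rw [Module.card_eq_pow_finrank (K := F), QuadraticAlgebra.finrank_eq_two]
  let GK : V ≃ₗ[QuadraticAlgebra F (-δ) τ] V :=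
    { toFun := G
      map_add' := fun a b => map_add G a b
      map_smul' := fun z v => by
        show G (z • v) = z • G v
        rw [hsm, hsm, map_add, map_smul, map_smul, hGJ]
      invFun := G.symm
      left_inv := G.left_inv
      right_inv := G.right_inv }
  have hpow : ∀ (m : ℕ) (v : V), (GK ^ m) v = (G ^ m) v := by
    intro m
    induction m with
    | zero => intro v; rfl
    | succ m ih =>
      intro v
      rw [pow_succ, pow_succ]
      show (GK ^ m) (G v) = (G ^ m) (G v)
      exact ih (G v)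
  obtain ⟨t, ht⟩ := two_dim_trace hfr GK (r := r) (fun v => by rw [hpow, hr])
    (by rw [hcard]; exact hcop)
  exact ⟨t.re, t.im, fun v => ht v⟩

end Pool.Agent.RegPack
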