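import Pool.Agent.Lib_MP_cd200f_co.Inv
import Mathlib.GroupTheory.Sylow

/-!
# Transitive groups
-/

namespace Pool.Agent.RegPack

open Module

variable {F V : Type*} [Field F] [AddCommGroup V] [Module F V]
variable {P : Set (Set (Submodule F V))}

/-- elements of `r`-power order are scalar -/
theorem scalar_of_pow [Finite F] (hF : 2 < Nat.card F) (hV : finrank F V = 4) (hP : IsPacking P)
    (hR : ∀ S ∈ P, IsRegular S) {r : ℕ} (hr : r.Prime) (hr2 : r ≠ 2)
    (hdvd : r ∣ Nat.card F * (Nat.card F - 1)) (n : ℕ) :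
    ∀ g : V ≃ₗ[F] V, (∀ S ∈ P, im g S ∈ P) → g ^ r ^ n = 1 → ∃ μ : F, ∀ v, g v = μ • v := by
  induction n with
  | zero =>
    intro g _ h
    rw [pow_zero, pow_one] at h
    exact ⟨1, fun v => by rw [h, one_smul]; rfl⟩
  | succ n ih =>
    intro g hg h
    by_contra hns
    have hpow : ∀ (k : ℕ), ∀ S ∈ P, im (g ^ k) S ∈ P := by
      intro k
      induction k with
      | zero => intro S hS; rw [pow_zero, im_one]; exact hS
      | succ k ihk => intro S hS; rw [pow_succ, im_mul]; exact ihk _ (hg S hS)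
    obtain ⟨c, hc⟩ := ih (g ^ r) (hpow r) (by rw [← pow_mul, ← pow_succ']; exact h)
    exact (odd_prime hF hV hP hR hg hr hr2 hc hns).1 hdvd

/-- a scalar map fixes every line -/
theorem im_scalar {g : V ≃ₗ[F] V} {μ : F} (hμ : μ ≠ 0) (h : ∀ v, g v = μ • v)
    (S : Set (Submodule F V)) : im g S = S := by
  have h1 : ∀ v, g v = μ • (1 : V ≃ₗ[F] V) v := h
  rw [← im_eq_of_smul hμ h1 S, im_one]

/-- no transitive linear group on the spreads of a regular packing if `q` is `1` modulo `3` -/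
theorem no_trans [Finite F] (hF : 2 < Nat.card F) (hV : finrank F V = 4) (hP : IsPacking P)
    (hR : ∀ S ∈ P, IsRegular S) (H : Subgroup (V ≃ₗ[F] V)) (hH : ∀ g ∈ H, ∀ S ∈ P, im g S ∈ P)
    (htr : ∀ S ∈ P, ∀ T ∈ P, ∃ g ∈ H, im g S = T) : Nat.card F % 3 ≠ 1 := by
  intro hq
  have hfin := finite_space (F := F) (V := V) hV
  have hnt : Nontrivial V := Module.nontrivial_of_finrank_pos (R := F) (by rw [hV]; norm_num)
  have hfinG : Finite (V ≃ₗ[F] V) := Finite.of_injective (fun g => (g : V → V))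
    (fun g h hgh => LinearEquiv.ext fun v => congrFun hgh v)
  have hfinS : Finite (Submodule F V) := Finite.of_injective _ SetLike.coe_injective
  have hfinP : Finite P := inferInstance
  have hcard := card_packing hV hP
  have h3 : 3 ∣ Nat.card P := by
    rw [hcard]
    obtain ⟨k, hk⟩ : ∃ k, Nat.card F = 3 * k + 1 := ⟨Nat.card F / 3, by omega⟩
    rw [hk]
    exact ⟨3 * k ^ 2 + 3 * k + 1, by ring⟩
  let act : MulAction H P :=
    { smul := fun g S => ⟨im g.1 S.1, hH g.1 g.2 S.1 S.2⟩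
      one_smul := fun S => Subtype.ext (im_one S.1)
      mul_smul := fun g h S => Subtype.ext (im_mul g.1 h.1 S.1) }
  have hsm : ∀ (g : H) (S : P), ((g • S : P) : Set (Submodule F V)) = im g.1 S.1 := fun _ _ => rfl
  have hpre : MulAction.IsPretransitive H P := ⟨fun S T => by
    obtain ⟨g, hg, hgST⟩ := htr S.1 S.2 T.1 T.2
    exact ⟨⟨g, hg⟩, Subtype.ext hgST⟩⟩
  have hfact : Fact (Nat.Prime 3) := ⟨Nat.prime_three⟩
  obtain ⟨Q⟩ : Nonempty (Sylow 3 H) := Sylow.nonempty
  have hne : Nonempty P := by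
    have : Nat.card P ≠ 0 := by
      rw [hcard]
      omega
    exact (Nat.card_ne_zero.1 this).1
  obtain ⟨S⟩ := hne
  have hQ : ∀ g ∈ (Q : Subgroup H), g ∈ MulAction.stabilizer H S := by
    intro g hg
    rw [MulAction.mem_stabilizer_iff]
    apply Subtype.ext
    rw [hsm]
    obtain ⟨n, hn⟩ := (IsPGroup.iff_orderOf.1 Q.isPGroup') ⟨g, hg⟩
    have h4 : (g : V ≃ₗ[F] V) ^ 3 ^ n = 1 := by
      have h5 := pow_orderOf_eq_one (⟨g, hg⟩ : (Q : Subgroup H))
      rw [hn] at h5
      have h6 := congrArg (fun z : (Q : Subgroup H) => ((z : H) : V ≃ₗ[F] V)) h5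
      exact h6
    obtain ⟨μ, hμ⟩ := scalar_of_pow hF hV hP hR Nat.prime_three (by norm_num) (by
      refine Dvd.dvd.mul_left ?_ _
      obtain ⟨k, hk⟩ : ∃ k, Nat.card F = 3 * k + 1 := ⟨Nat.card F / 3, by omega⟩
      rw [hk]
      exact ⟨k, by omega⟩) n (g : V ≃ₗ[F] V) (hH _ g.2) h4
    refine im_scalar (μ := μ) ?_ hμ S.1
    rintro rfl
    obtain ⟨u, hu⟩ := exists_ne (0 : V)
    have h5 := hμ u
    rw [zero_smul] at h5
    exact hu ((LinearEquiv.map_eq_zero_iff _).1 h5)
  have h4 : (MulAction.stabilizer H S).index ∣ (Q : Subgroup H).index :=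
    Subgroup.index_dvd_of_le hQ
  rw [MulAction.index_stabilizer_of_transitive] at h4
  exact Q.not_dvd_index (h3.trans h4)

end Pool.Agent.RegPack
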